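import Pool.Agent.N518.RC.Iter
import Pool.Agent.TH563.V.Edge

/-!
# The step at a vertex with a circle: perturbations of the factor of the circle
-/

set_option autoImplicit false
set_option linter.all false

namespace Pool.Agent.N518.UB

open Finset Filter Topology Metric
open Pool.Agent.W711.HT hiding XX
open Pool.Agent.Y472
open Pool.Agent.N518.RC hiding circ_step circ_step' itG_bd circ_iter
open Pool.Agent.W85.HT (Kc Kc_mem Kc_compact log_lim)
open Pool.Agent.W293.HT (GH cauchy2 isOpen_Rc zero_mem_Rc)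
open Pool.Agent.TH563.UV (UN real_axis)
open Pool.Agent.TH563.Z (gh_up)
open Pool.Agent.TH563.V (inv_ev)
open Pool.Agent.TH219.J139 (Ub Ub_diff Ub_even)
open Pool.Agent.Y481 (itI itN itG LI_lin Sep cw LI LN)
open scoped Real

/-- the factor of a vertex: with a circle the factor `UN` is perturbed by the constant `θ` -/
noncomputable def Uq (b : Bool) (θ : ℂ) (N : ℕ) (ψ : ℂ) : ℂ := if b then UN N ψ + θ else 1

lemma Uq_false (θ : ℂ) (N : ℕ) (ψ : ℂ) : Uq false θ N ψ = 1 := rfl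

lemma Uq_true (θ : ℂ) (N : ℕ) (ψ : ℂ) : Uq true θ N ψ = UN N ψ + θ := rfl

lemma Uq_eq (b : Bool) (θ : ℂ) (N : ℕ) (ψ : ℂ) : Uq b θ N ψ = Ub b N ψ + if b then θ else 0 := by
  unfold Uq Ub
  cases b <;> simp

lemma Uq_zero (b : Bool) (N : ℕ) (ψ : ℂ) : Uq b 0 N ψ = Ub b N ψ := by
  rw [Uq_eq]
  simp

lemma Uq_diff (b : Bool) (θ : ℂ) (N : ℕ) : Differentiable ℂ (Uq b θ N) := by
  have : Uq b θ N = fun ψ => Ub b N ψ + if b then θ else 0 := funext fun ψ => Uq_eq b θ N ψ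
  rw [this]
  exact (Ub_diff b N).add_const _

lemma Uq_even (b : Bool) (θ : ℂ) (N : ℕ) (ψ : ℂ) : Uq b θ N (-ψ) = Uq b θ N ψ := by
  rw [Uq_eq, Uq_eq, Ub_even]

lemma Uq_bd {N : ℕ} (hN : 1 ≤ N) (b : Bool) {θ : ℂ} (hθ : ‖θ‖ ≤ 1) {x y : ℝ} (hy : |y| ≤ 1 / N) :
    ‖Uq b θ N (x + y * Complex.I)‖ ≤ 4 * N := by
  have hN1 : (1 : ℝ) ≤ N := by exact_mod_cast hN
  rw [Uq_eq]
  have h1 := Ub_bd hN b (x := x) hy
  have h2 : ‖(if b then θ else 0 : ℂ)‖ ≤ 1 := by
    cases b <;> simp [hθ]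
  exact (norm_add_le _ _).trans (by linarith)

/-- the functional of a vertex -/
noncomputable def Lq (b : Bool) (θ : ℂ) (a : ℤ) (N : ℕ) (F : ℂ → ℂ) : ℂ :=
  LI a N fun w => Uq b θ N w * F w

lemma Lq_false (θ : ℂ) (a : ℤ) (N : ℕ) : Lq false θ a N = LI a N := by
  funext F
  unfold Lq Uq
  simp

lemma Lq_true (θ : ℂ) (a : ℤ) (N : ℕ) (F : ℂ → ℂ) :
    Lq true θ a N F = LI a N fun w => (UN N w + θ) * F w := by
  unfold Lq Uq
  simp

lemma Lq_lin (b : Bool) (θ : ℂ) (a : ℤ) {N : ℕ} (hN : 1 ≤ N) : Sep.Lin (Lq b θ a N) := by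
  intro ι I c h hh
  unfold Lq
  have e : (fun w => Uq b θ N w * ∑ i ∈ I, c i * h i w) =
      fun w => ∑ i ∈ I, c i * (Uq b θ N w * h i w) := by
    funext w
    rw [mul_sum]
    exact sum_congr rfl fun i _ => by ring
  rw [e]
  exact LI_lin a hN ι I c (fun i w => Uq b θ N w * h i w) fun i => (Uq_diff b θ N).mul (hh i)

lemma LI_add2 (a : ℤ) {N : ℕ} (hN : 1 ≤ N) {F G : ℂ → ℂ} (hF : Differentiable ℂ F)
    (hG : Differentiable ℂ G) (c : ℂ) :
    LI a N (fun w => F w + c * G w) = LI a N F + c * LI a N G := by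
  have h := LI_lin a hN Bool Finset.univ (fun i => if i then 1 else c)
    (fun i w => if i then F w else G w) (fun i => by cases i <;> simpa)
  simp only [Fintype.sum_bool, if_true, Bool.false_eq_true, if_false, one_mul] at h
  exact h

/-- asymptotics at a vertex with a circle -/
theorem circ_step {L j : ℕ} (a : ℤ) {θ : ℕ → ℂ} {ε₁ : ℝ} (hε₁ : 0 < ε₁)
    (hθ : ∀ N, ‖θ N‖ ≤ Real.exp (-(ε₁ * N))) {f : ℕ → (ℕ → ℂ) → ℂ} {S : (ℕ → ℂ) → ℂ} {r r' c B p : ℝ}
    (hr' : 0 < r') (hrr : r' ≤ r) (hr1 : r ≤ 1) (hc : 0 < c) (hp : 0 < p) (hB : 0 ≤ B)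
    (hsep : ∀ N, Sep L (f N)) (hlim : SeqLim L r f S)
    (hdif : ∀ ψ ∈ Bx L r, DifferentiableOn ℂ (fun w => S (Function.update ψ j w)) (Rc r r))
    (hconc : ∀ ψ ∈ Bx L r, (deriv (deriv fun w => S (Function.update ψ j w)) (ψ j)).re ≤ -c)
    (hev : ∀ ψ ∈ Bx L r, S (Function.update ψ j (-ψ j)) = S ψ)
    (hbd : ∀ ψ ∈ Bx L r, ‖S ψ‖ ≤ B) (hpos : ∀ ψ ∈ Bx L r, p ≤ (S ψ).re)
    (hfar : ∀ (ψ : ℕ → ℕ → ℂ) (ψ₀ : ℕ → ℂ), ψ₀ ∈ Bx L r' →
      (∀ i < L, Tendsto (fun N => ψ N i) atTop (𝓝 (ψ₀ i))) →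
      ∃ κ : ℝ, 0 < κ ∧ ∀ᶠ N : ℕ in atTop, ∀ x y : ℝ, r / 4 ≤ |x| → |x| ≤ π → |y| ≤ 1 / N →
        ‖f N (Function.update (ψ N) j (x + y * Complex.I))‖ ≤
          Real.exp (N * ((S (Function.update ψ₀ j 0)).re - κ))) :
    SeqLim L r' (fun N ψ => LI a N fun w => (UN N w + θ N) * f N (Function.update ψ j w))
      (fun ψ => S (Function.update ψ j 0)) := by
  have hr : 0 < r := lt_of_lt_of_le hr' hrr
  have hπ := Real.pi_gt_three
  intro ψ ψ₀ hψ₀ hψ
  obtain ⟨ρ, hρ⟩ : ∃ ρ : ℝ, ρ = r / 4 := ⟨_, rfl⟩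
  have hρ0 : 0 < ρ := by rw [hρ]; positivity
  obtain ⟨Y, hY⟩ : ∃ Y : ℕ → ℂ → ℂ, Y = fun N w => f N (Function.update (ψ N) j w) := ⟨_, rfl⟩
  obtain ⟨G, hG⟩ : ∃ G : ℂ → ℂ, G = fun w => S (Function.update ψ₀ j w) := ⟨_, rfl⟩
  have hB0 : ∀ w ∈ Rc r r, Function.update ψ₀ j w ∈ Bx L r := fun w hw => Bx_update hrr hψ₀ hw
  have hYd : ∀ N, Differentiable ℂ (Y N) := fun N => by rw [hY]; exact (hsep N).diff (ψ N) j
  -- the properties of `G`
  have hG0 : Function.update ψ₀ j (ψ₀ j) = ψ₀ := Function.update_eq_self _ _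
  have hψ₀r : ψ₀ ∈ Bx L r := fun i hi => rcm hrr hrr (hψ₀ i hi)
  have hGd : DifferentiableOn ℂ G (Rc r r) := by rw [hG]; exact hdif ψ₀ hψ₀r
  have hsub3 : Rc (3 * ρ) (3 * ρ) ⊆ Rc r r := rcm (by rw [hρ]; linarith) (by rw [hρ]; linarith)
  have hsub2 : Rc (2 * ρ) (2 * ρ) ⊆ Rc (3 * ρ) (3 * ρ) := rcm (by linarith) (by linarith)
  have hGe : ∀ w ∈ Rc r r, G (-w) = G w := by
    intro w hw
    have h := hev _ (hB0 w hw)
    rw [Function.update_self, Function.update_idem] at h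
    rw [hG]
    exact h
  have hGc : ∀ w ∈ Rc r r, (deriv (deriv G) w).re ≤ -c := by
    intro w hw
    have h := hconc _ (hB0 w hw)
    rw [Function.update_self] at h
    simp only [Function.update_idem] at h
    rw [hG]
    exact h
  have hGb : ∀ w ∈ Rc r r, ‖G w‖ ≤ B := by
    intro w hw
    rw [hG]
    exact hbd _ (hB0 w hw)
  have hGp : ∀ w ∈ Rc r r, p ≤ (G w).re := by
    intro w hw
    rw [hG]
    exact hpos _ (hB0 w hw)
  have hgh : GH ρ ρ c (8 * B / ρ ^ 2) G :=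
    ⟨hGd.mono hsub3, fun w hw => hGe w (hsub3 hw), fun w hw => hGc w (hsub3 (hsub2 hw)),
      fun w hw => cauchy2 hρ0 le_rfl (hGd.mono hsub3) (fun z hz => hGb z (hsub3 hz)) hw⟩
  -- the asymptotics of `Y`
  have hKsub : Kc (2 * ρ) (2 * ρ) ⊆ Rc r r := by
    intro w hw
    rw [Kc_mem] at hw
    exact ⟨by rw [hρ] at hw; linarith [hw.1], by rw [hρ] at hw; linarith [hw.2]⟩
  have hseq := Pool.Agent.W583.HT.seq ℂ (Kc (2 * ρ) (2 * ρ)) (Kc_compact _ _)
    (fun N w => Real.log ‖Y N w‖ / N) (fun w => (G w).re)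
    (Complex.continuous_re.comp_continuousOn (hGd.continuousOn.mono hKsub)) (by
      intro q q₀ hq₀ hq hqt
      have h := hlim (fun N => Function.update (ψ N) j (q N)) (Function.update ψ₀ j q₀)
        (hB0 q₀ (hKsub hq₀)) (upd_lim hψ j hqt)
      rw [hY, hG]
      exact h)
  have hMW : MW Y G (Rc (2 * ρ) (2 * ρ)) := by
    intro ε hε
    filter_upwards [hseq (min ε (p / 2)) (lt_min hε (by positivity)), eventually_ge_atTop 1] with
      N hN h1 w hw
    have hNp : (0 : ℝ) < N := by exact_mod_cast h1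
    have h2 := hN w (by rw [Kc_mem]; exact ⟨hw.1.le, hw.2.le⟩)
    have h3 := hGp w (hsub3 (hsub2 hw))
    refine ⟨?_, ?_⟩
    · intro h0
      have h4 := h2.trans (min_le_right _ _)
      simp only [h0, norm_zero, Real.log_zero, zero_div, zero_sub, abs_neg] at h4
      have h5 := le_abs_self (G w).re
      linarith
    · have h4 := h2.trans (min_le_left _ _)
      have h5 : Real.log ‖Y N w‖ / N - (G w).re = (Real.log ‖Y N w‖ - N * (G w).re) / N := by
        field_simp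
      rw [h5, abs_div, abs_of_pos hNp, div_le_iff₀ hNp] at h4
      exact h4
  -- localisation
  obtain ⟨κ, hκ, hfar'⟩ := hfar ψ ψ₀ hψ₀ hψ
  have hL0 : 0 ≤ 8 * B / ρ ^ 2 := by positivity
  obtain ⟨κ₂, hκ₂, hloc⟩ := Pool.Agent.TH929.J29.locb Pool.Agent.W711.HT.upb (a := a)
    (K := (Set.univ : Set Unit)) (Y := fun N w _ => Y N w) (G := fun w _ => G w)
    (c₀ := c / 2) (L := 8 * B / ρ ^ 2) (τ₁ := ρ) hρ0 (by linarith) hρ0 hρ0
    (fun N q _ => hYd N)
    (fun ε hε => by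
      filter_upwards [hMW ε hε] with N h w hw q _
      exact h w hw) (by positivity) hL0
    (fun q _ x hx => real_axis hgh hρ0 hρ0 x hx)
    (fun q _ x y hx hy hy' => gh_up hgh hρ0 hρ0 hL0 hx hy hy')
    ⟨κ, hκ, by
      filter_upwards [hfar'] with N h1 q _ x y hx1 hx2 hy
      rw [hρ] at hx1
      have h2 := h1 x y hx1 hx2 hy
      rw [hY, hG]
      exact h2⟩
  have hG0' : deriv G 0 = 0 := hgh.d0 hρ0 hρ0
  have hG2 := hgh.d2 0 (zero_mem_Rc (by linarith) (by linarith))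
  have hM := Pool.Agent.TH929.J29.lapB Pool.Agent.W588.HT.lapc Pool.Agent.W930.HTLog.main
    (Y := Y) (G := G) (a := a) hρ0 hρ0
    (Eventually.of_forall fun N => (hYd N).differentiableOn)
    (hGd.mono (hsub2.trans hsub3)) hMW hG0' (by linarith) (by
      intro x hx hx0
      have h1 := real_axis hgh hρ0 hρ0 x hx
      have h2 : 0 < c / 2 * x ^ 2 := by positivity
      linarith)
  -- the bound on the strip
  have hstrip : ∀ᶠ N : ℕ in atTop, ∀ x y : ℝ, |x| ≤ π → |y| ≤ 1 / N →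
      ‖Y N (x + y * Complex.I)‖ ≤ Real.exp (N * ((G 0).re + ε₁ / 4)) := by
    obtain ⟨bb, hbb⟩ : ∃ bb : ℝ, bb = ε₁ / 8 / ((8 * B / ρ ^ 2 + 1) * (ρ + ρ)) := ⟨_, rfl⟩
    have hbb0 : 0 < bb := by rw [hbb]; positivity
    filter_upwards [hfar', hMW (ε₁ / 8) (by positivity), inv_ev hρ0, inv_ev hbb0] with
      N h1 h2 h3 h4 x y hx hy
    have hN0 : (0 : ℝ) ≤ N := Nat.cast_nonneg N
    rcases le_total ρ |x| with h | h
    · have h5 := h1 x y (by rw [← hρ]; exact h) hx hy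
      rw [hY, hG]
      refine h5.trans (Real.exp_le_exp.2 (mul_le_mul_of_nonneg_left ?_ hN0))
      linarith
    · have m1 : (x : ℂ) + y * Complex.I ∈ Rc (2 * ρ) (2 * ρ) := by
        refine ⟨?_, ?_⟩
        · simp only [Complex.add_re, Complex.ofReal_re, Complex.mul_re, Complex.ofReal_im,
            Complex.I_re, Complex.I_im, mul_zero, zero_mul, sub_zero, add_zero]
          linarith
        · simp only [Complex.add_im, Complex.ofReal_im, Complex.mul_im, Complex.ofReal_re,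
            Complex.I_re, Complex.I_im, mul_one, mul_zero, zero_add, add_zero]
          linarith
      obtain ⟨a1, a2⟩ := h2 _ m1
      rw [← Real.log_le_iff_le_exp (norm_pos_iff.2 a1)]
      have a3 := (abs_le.1 a2).2
      have a4 := Pool.Agent.TH563.V.gh_up2 hgh hρ0 hρ0 hL0 h (hy.trans h3.le)
      have a5 := real_axis hgh hρ0 hρ0 x h
      have a7 : 0 ≤ c / 2 * x ^ 2 := by positivity
      have a8 : 8 * B / ρ ^ 2 * ((|x| + |y|) * |y|) ≤ ε₁ / 8 := by
        have e1 : |x| + |y| ≤ ρ + ρ := add_le_add h (hy.trans h3.le)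
        have e2 : |y| ≤ bb := hy.trans h4.le
        have e3 : (|x| + |y|) * |y| ≤ (ρ + ρ) * bb :=
          mul_le_mul e1 e2 (abs_nonneg _) (by positivity)
        have e4 : (8 * B / ρ ^ 2 + 1) * ((ρ + ρ) * bb) = ε₁ / 8 := by
          rw [hbb]; field_simp
        have e5 : 0 ≤ (|x| + |y|) * |y| := by positivity
        nlinarith
      have a9 : (G (x + y * Complex.I)).re ≤ (G 0).re + ε₁ / 8 := by linarith
      have a10 := mul_le_mul_of_nonneg_left a9 hN0
      nlinarith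
  obtain ⟨D, hD, hbdL⟩ := Lc_bd a
  have hfin : Tendsto (fun N : ℕ => Real.log ‖upp (1 / N) fun w => Ea a N w *
      ((UN N w + θ N) * Y N w) * kr N w‖ / N) atTop (𝓝 (G 0).re) := by
    refine log_lim (M := fun N : ℕ => (-Complex.I) * ∫ x in (-ρ)..ρ, Ea a N x * Y N x)
      (κ := min κ₂ (ε₁ / 2)) (C := 2) (lt_min hκ₂ (by positivity)) zero_le_two ?_ ?_
    · intro e he
      filter_upwards [hM e he] with N h1
      rw [norm_mul, norm_neg, Complex.norm_I, one_mul]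
      exact h1
    · filter_upwards [hloc, hbdL, hstrip, pow_ev (show 0 < ε₁ / 4 by positivity) D 1,
        eventually_ge_atTop 1] with N h1 h2 h3 h4 hN
      have hN0 : (0 : ℝ) ≤ N := Nat.cast_nonneg N
      have h5 := h1 () trivial
      have h6 := h2 false (Y N) (Real.exp (N * ((G 0).re + ε₁ / 4))) (Real.exp_pos _).le
        (hYd N).continuous h3
      rw [Lc_false] at h6
      have e1 : (upp (1 / N) fun w => Ea a N w * ((UN N w + θ N) * Y N w) * kr N w) =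
          (upp (1 / N) fun w => Ea a N w * (UN N w * Y N w) * kr N w) + θ N * LI a N (Y N) := by
        have := LI_add2 a hN (F := fun w => UN N w * Y N w) (G := Y N)
          ((Ub_diff true N).mul (hYd N)) (hYd N) (θ N)
        rw [show (upp (1 / N) fun w => Ea a N w * ((UN N w + θ N) * Y N w) * kr N w) =
          LI a N (fun w => UN N w * Y N w + θ N * Y N w) by
            unfold LI
            congr 1
            funext w
            ring, this]
        rfl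
      rw [e1]
      have e2 := norm_add_le ((upp (1 / N) fun w => Ea a N w * (UN N w * Y N w) * kr N w) -
        (-Complex.I) * ∫ x in (-ρ)..ρ, Ea a N x * Y N x) (θ N * LI a N (Y N))
      rw [show (upp (1 / N) fun w => Ea a N w * (UN N w * Y N w) * kr N w) -
        (-Complex.I) * (∫ x in (-ρ)..ρ, Ea a N x * Y N x) + θ N * LI a N (Y N) =
        (upp (1 / N) fun w => Ea a N w * (UN N w * Y N w) * kr N w) + θ N * LI a N (Y N) -
        (-Complex.I) * (∫ x in (-ρ)..ρ, Ea a N x * Y N x) by ring] at e2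
      refine e2.trans ?_
      have m1 : min κ₂ (ε₁ / 2) ≤ κ₂ := min_le_left _ _
      have m2 : min κ₂ (ε₁ / 2) ≤ ε₁ / 2 := min_le_right _ _
      have e3 : Real.exp (N * ((G 0).re - κ₂)) ≤ Real.exp (N * ((G 0).re - min κ₂ (ε₁ / 2))) :=
        Real.exp_le_exp.2 (mul_le_mul_of_nonneg_left (by linarith) hN0)
      have e4 : ‖θ N * LI a N (Y N)‖ ≤ Real.exp (N * ((G 0).re - min κ₂ (ε₁ / 2))) := by
        rw [norm_mul]
        rw [pow_one] at h4
        refine (mul_le_mul (hθ N) (h6.trans (mul_le_mul_of_nonneg_right h4 (Real.exp_pos _).le))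
          (norm_nonneg _) (Real.exp_pos _).le).trans ?_
        rw [← Real.exp_add, ← Real.exp_add]
        refine Real.exp_le_exp.2 ?_
        have := mul_le_mul_of_nonneg_left m2 hN0
        nlinarith
      have e5 : ‖(upp (1 / N) fun w => Ea a N w * (UN N w * Y N w) * kr N w) -
        (-Complex.I) * ∫ x in (-ρ)..ρ, Ea a N x * Y N x‖ ≤ Real.exp (N * ((G 0).re - κ₂)) := h5
      linarith
  have e1 : (fun N : ℕ => Real.log ‖LI a N fun w => (UN N w + θ N) *
      f N (Function.update (ψ N) j w)‖ / N) =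
      fun N : ℕ => Real.log ‖upp (1 / N) fun w => Ea a N w * ((UN N w + θ N) * Y N w) *
        kr N w‖ / N := by
    rw [hY]
    rfl
  show Tendsto (fun N : ℕ => Real.log ‖LI a N fun w => (UN N w + θ N) *
    f N (Function.update (ψ N) j w)‖ / N) atTop (𝓝 (S (Function.update ψ₀ j 0)).re)
  rw [e1]
  have e2 : S (Function.update ψ₀ j 0) = G 0 := by rw [hG]
  rw [e2]
  exact hfin

end Pool.Agent.N518.UB
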