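import Pool.Agent.N518.RC.Fin
import Pool.Agent.TH563.UB.Vol

/-!
# The volume of the angle structures is at most twice the volume of the regular ideal octahedron
# times the number of edges
-/

set_option autoImplicit false

namespace Pool.Agent.N518.UB

open Finset
open Pool.Agent.Y472 Pool.Agent.Y481.DR
open Pool.Agent.TH563.UV (Tb PB AB)
open Pool.Agent.TH563.UB (v8)
open Pool.Agent.W719.AR (Fl)
open Pool.Agent.N518.RC (DAngC)
open scoped Real

/-- a tetrahedron with the angle `x` -/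
lemma tet_le {x y z : ℝ} (hx : 0 < x) (hy : 0 < y) (hz : 0 < z) (h : x + y + z = π) :
    GapVol.lob x + GapVol.lob y + GapVol.lob z ≤
      2 * GapVol.lob (π / 4) - (x - π / 2) * (Real.log 2 / 2) := by
  have hπ := Real.pi_pos
  have h1 := Pool.Agent.W120.VC.tet (π / 2) (π / 4) (π / 4) x y z (by positivity) (by positivity)
    (by positivity) (by ring) hx.le hy.le hz.le h
  have h2 : Real.log (2 * Real.sin (π / 2)) = Real.log 2 := by
    rw [Real.sin_pi_div_two, mul_one]
  have h3 : Real.log (2 * Real.sin (π / 4)) = Real.log 2 / 2 := by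
    rw [Real.sin_pi_div_four, show (2 : ℝ) * (√2 / 2) = √2 by ring, Real.log_sqrt (by norm_num)]
  rw [h2, h3, GapVol.lob_half] at h1
  have h4 : z = π - x - y := by linarith
  rw [h4] at h1 ⊢
  linarith

/-- an octahedron -/
lemma oct_le {f g : Fl} (hf : f.Pos) (hg : g.Pos) (h : f.b + f.c' + (g.b + g.c') = 2 * π) :
    f.vol + g.vol ≤ v8 := by
  obtain ⟨f1, f2, f3, f4, f5, f6, f7, f8⟩ := hf
  obtain ⟨g1, g2, g3, g4, g5, g6, g7, g8⟩ := hg
  have a1 := tet_le f2 f1 f3 (by linarith)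
  have a2 := tet_le f7 f5 f6 (by linarith)
  have a3 := tet_le g2 g1 g3 (by linarith)
  have a4 := tet_le g7 g5 g6 (by linarith)
  unfold Fl.vol v8
  have e : (f.b - π / 2) * (Real.log 2 / 2) + (f.c' - π / 2) * (Real.log 2 / 2) +
      ((g.b - π / 2) * (Real.log 2 / 2) + (g.c' - π / 2) * (Real.log 2 / 2)) = 0 := by
    have : (f.b - π / 2) * (Real.log 2 / 2) + (f.c' - π / 2) * (Real.log 2 / 2) +
      ((g.b - π / 2) * (Real.log 2 / 2) + (g.c' - π / 2) * (Real.log 2 / 2)) =
      (f.b + f.c' + (g.b + g.c') - 2 * π) * (Real.log 2 / 2) := by ring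
    rw [this, h]
    ring
  linarith

/-- the trees -/
lemma ab_le (y : AB) (h : y.OK) : y.vol ≤ 2 * v8 * y.shape.ne := by
  induction y with
  | vx b a =>
    show (0 : ℝ) ≤ 2 * v8 * ((0 : ℕ) : ℝ)
    simp
  | br t c f g ht hc =>
    obtain ⟨h1, h2, h3, h4, h5, -⟩ := h
    have a1 := ht h1
    have a2 := hc h2
    have a3 := oct_le h3 h4 h5
    have e1 : (AB.br t c f g).vol = t.vol + c.vol + 2 * (f.vol + g.vol) := rfl
    have e2 : (((AB.br t c f g).shape.ne : ℕ) : ℝ) = t.shape.ne + c.shape.ne + 1 := by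
      show ((t.shape.ne + c.shape.ne + 1 : ℕ) : ℝ) = _
      push_cast
      ring
    rw [e1, e2]
    linarith

/-- the ring -/
theorem dvol_le {n : ℕ} {m : ℤ} {y : ℕ → AB} {f g F G : ℕ → Fl} (h : DAngC n m y f g F G) :
    dVol n y f g F G ≤ 2 * v8 * (n + ∑ j ∈ range n, ((y j).shape.ne : ℝ)) := by
  unfold dVol
  have e : 2 * v8 * (n + ∑ j ∈ range n, ((y j).shape.ne : ℝ)) =
      ∑ j ∈ range n, (2 * v8 * (y j).shape.ne + 2 * v8) := by
    rw [sum_add_distrib, ← mul_sum, sum_const, card_range, nsmul_eq_mul]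
    ring
  rw [e]
  refine sum_le_sum fun j hj => ?_
  rw [mem_range] at hj
  have a1 := ab_le _ (h.tree j hj)
  obtain ⟨p1, p2, p3, p4⟩ := h.pos j hj
  obtain ⟨d1, d2⟩ := h.diag j hj
  have a2 := oct_le p1 p2 d1
  have a3 := oct_le p3 p4 d2
  linarith

end Pool.Agent.N518.UB
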