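import Pool.Agent.N518.UB.Hyb
import Pool.Agent.N518.UB.Vol

/-!
# Upper bounds for the growth of the invariants of rings of trees
-/

set_option autoImplicit false
set_option linter.all false

namespace Pool.Agent.N518.UB

open Finset Filter Topology Metric
open Pool.Agent.W711.HT hiding XX
open Pool.Agent.Y472 Pool.Agent.Y481.DR
open Pool.Agent.Y481 (cw)
open Pool.Agent.TH563.UV (Tb op XX PB AB VC)
open Pool.Agent.TH563.UB (mix const_ev Sb sb_props v8 bet_v8 Hv AS as_shape as_ang as_vol)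
open Pool.Agent.TH219.J139 (Ub Ub_diff)
open Pool.Agent.W719.AR (Fl)
open Pool.Agent.N561 (CG VCG gg vg EFW)
open Pool.Agent.TH563.V (pt)
open Pool.Agent.N518.RC (tvc tvcl RCritC DAngC rcc_congr rcc_rev rvalc_rev exc geocv)
open scoped Real

/-! ### Kinds -/

/-- all kinds are zero -/
def k0 : Bool → ℕ → ℤ → ℕ := fun _ _ _ => 0

lemma gg0 (S : ℕ → ℂ → ℂ → ℂ) (s : ℂ → ℂ → ℂ) (p : PB) : gg k0 S s 0 p = p.gs s := by
  induction p with
  | vx b a z => rfl
  | br t c ht hc =>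
    show gg k0 S s 0 t + deriv (fun w => pt S s 0 0 c.rz w) t.rz = t.gs s + deriv (fun w => s c.rz w) t.rz
    rw [ht]
    rfl

lemma vg0 (S : ℕ → ℂ → ℂ → ℂ) (s : ℂ → ℂ → ℂ) (p : PB) : vg k0 S s 0 p = p.vl s := by
  induction p with
  | vx b a z => rfl
  | br t c ht hc =>
    show vg k0 S s 0 t + (Pool.Agent.TH563.UV.vt c.bl c.wt c.rz + vg k0 S s 0 c +
      pt S s 0 0 c.rz t.rz) = t.vl s + (Pool.Agent.TH563.UV.vt c.bl c.wt c.rz + c.vl s + s c.rz t.rz)
    rw [ht, hc]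
    rfl

lemma cg0 (cen : ℕ → ℂ) (S : ℕ → ℂ → ℂ → ℂ) (s : ℂ → ℂ → ℂ) (ρ τ g : ℝ) (p : PB)
    (h : p.Crt s ρ τ) : CG k0 cen S s ρ τ g 0 p := by
  induction p with
  | vx b a z => trivial
  | br t c ht hc =>
    obtain ⟨h1, h2, h3⟩ := h
    refine ⟨ht h1, hc h2, ⟨fun _ => ?_, fun h => absurd rfl h⟩, fun h => absurd rfl h,
      fun h => absurd rfl h⟩
    show VC ρ τ c.bl c.wt c.rz (gg k0 S s 0 c + deriv (fun w => pt S s 0 0 w t.rz) c.rz)
    rw [gg0]
    exact h3

/-! ### Lists -/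

lemma map_lf {β : Type*} (f : Tb → β) (ts : List (Tb × Tb)) :
    (ts.map fun p => (f p.1, f p.2)) = (List.range ts.length).map fun i =>
      (f (tj ts (2 * i)), f (tj ts (2 * i + 1))) := by
  induction ts with
  | nil => rfl
  | cons p ts ih =>
    rw [List.map_cons, ih, List.length_cons, List.range_succ_eq_map, List.map_cons, List.map_map]
    rfl

lemma tvcl_lf (ts : List (Tb × Tb)) : tvcl ts = lf ts.length (fun j => (tj ts j).wt)
    (fun j N ψ => Ub (tj ts j).bl N ψ * XX (tj ts j) N ψ) := map_lf tvc ts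

lemma lf_scl (k : ℕ) (w : ℕ → ℤ) (u : ℕ → ℕ → ℂ → ℂ) (e : ℕ → ℕ → ℂ) :
    lf k w (fun j N ψ => u j N ψ * e j N) =
      scl (lf k w u) ((List.range k).map fun i => (e (2 * i), e (2 * i + 1))) := by
  unfold lf scl
  rw [List.zipWith_map]
  simp

lemma prod_e (k N : ℕ) (e : ℕ → ℕ → ℂ) :
    (((List.range k).map fun i => (e (2 * i), e (2 * i + 1))).map fun c => c.1 N * c.2 N).prod =
      ∏ j ∈ range (2 * k), e j N := by
  induction k with
  | zero => rfl
  | succ k ih =>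
    rw [List.range_succ, List.map_append, List.map_append, List.prod_append, ih,
      show 2 * (k + 1) = (2 * k + 1) + 1 by ring, prod_range_succ, prod_range_succ]
    simp only [List.map_cons, List.map_nil, List.prod_cons, List.prod_nil, mul_one]
    ring

lemma lf_congr {k : ℕ} {w w' : ℕ → ℤ} {v v' : ℕ → ℕ → ℂ → ℂ} (hw : ∀ j < 2 * k, w j = w' j)
    (hv : ∀ j < 2 * k, v j = v' j) : lf k w v = lf k w' v' := by
  unfold lf
  refine List.map_congr_left fun i hi => ?_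
  rw [List.mem_range] at hi
  rw [hw (2 * i) (by omega), hw (2 * i + 1) (by omega), hv (2 * i) (by omega),
    hv (2 * i + 1) (by omega)]

/-- the limit gives the bound -/
lemma gr_of {k : ℕ} {w : ℕ → ℤ} {m : ℤ} {V : ℝ} {v : ℕ → ℕ → ℂ → ℂ}
    (h : Tendsto (fun N : ℕ => Real.log ‖ES N (lf k w v) m‖ / N) atTop (𝓝 V)) : Gr k w m V v := by
  intro ε hε
  filter_upwards [h.eventually_lt_const (show V < V + ε by linarith), eventually_gt_atTop 0] with
    N h1 h2
  have hN : (0 : ℝ) < N := by exact_mod_cast h2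
  rw [div_lt_iff₀ hN] at h1
  by_cases h0 : ‖ES N (lf k w v) m‖ = 0
  · rw [h0]
    exact (Real.exp_pos _).le
  · rw [← Real.log_le_iff_le_exp (lt_of_le_of_ne (norm_nonneg _) (Ne.symm h0))]
    linarith

/-! ### The trees -/

/-- every vertex has a circle -/
def AllC : Tb → Prop
  | .vx b _ => b = true
  | .br t c => AllC t ∧ AllC c

lemma allC_root (t : Tb) (h : AllC t) : t.bl = true := by
  induction t with
  | vx b a => exact h
  | br t c ht hc => exact ht h.1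

/-- a circle at the root -/
def cpb : PB → PB
  | .vx _ a z => .vx true a z
  | .br t c => .br (cpb t) c

lemma cpb_rz (p : PB) : (cpb p).rz = p.rz := by
  induction p with
  | vx b a z => rfl
  | br t c ht hc => exact ht

lemma cpb_bl (p : PB) : (cpb p).bl = true := by
  induction p with
  | vx b a z => rfl
  | br t c ht hc => exact ht

lemma cpb_nc (p : PB) : (cpb p).nc = p.nc := by
  induction p with
  | vx b a z => rfl
  | br t c ht hc =>
    show (cpb t).nc + 1 = t.nc + 1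
    rw [ht]

lemma cpb_gs (s : ℂ → ℂ → ℂ) (p : PB) : (cpb p).gs s = p.gs s := by
  induction p with
  | vx b a z => rfl
  | br t c ht hc =>
    show (cpb t).gs s + deriv (fun w => s c.rz w) (cpb t).rz = t.gs s + deriv (fun w => s c.rz w) t.rz
    rw [ht, cpb_rz]

lemma cpb_vl (s : ℂ → ℂ → ℂ) (p : PB) : (cpb p).vl s = p.vl s := by
  induction p with
  | vx b a z => rfl
  | br t c ht hc =>
    show (cpb t).vl s + (Pool.Agent.TH563.UV.vt c.bl c.wt c.rz + c.vl s + s c.rz (cpb t).rz) =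
      t.vl s + (Pool.Agent.TH563.UV.vt c.bl c.wt c.rz + c.vl s + s c.rz t.rz)
    rw [ht, cpb_rz]

lemma cpb_crt (s : ℂ → ℂ → ℂ) (ρ τ : ℝ) (p : PB) (h : p.Crt s ρ τ) : (cpb p).Crt s ρ τ := by
  induction p with
  | vx b a z => trivial
  | br t c ht hc =>
    obtain ⟨h1, h2, h3⟩ := h
    refine ⟨ht h1, h2, ?_⟩
    rw [cpb_rz]
    exact h3

lemma cpb_hv {M : ℕ} (p : PB) (h : Hv M p.shape) : Hv M (cpb p).shape := by
  induction p with
  | vx b a z => exact Or.inl rfl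
  | br t c ht hc => exact ⟨ht h.1, h.2⟩

lemma cpb_ne (p : PB) : (cpb p).shape.ne = p.shape.ne := by
  induction p with
  | vx b a z => rfl
  | br t c ht hc =>
    show (cpb t).shape.ne + c.shape.ne + 1 = t.shape.ne + c.shape.ne + 1
    rw [ht]

lemma pnc (p : PB) : p.shape.nc = p.nc := by
  induction p with
  | vx b a z => rfl
  | br t c iht _ =>
    show t.shape.nc + 1 = t.nc + 1
    rw [iht]

/-- the value at a configuration of a heavy tree -/
lemma vl_low {ρ τ κ c : ℝ} {s dl : ℂ → ℂ → ℂ} (hK : KD ρ τ κ c s dl) {ε : ℝ} {M : ℕ} (hM : 16 ≤ M)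
    (hAS : ∀ t : Tb, Hv M t → (2 * v8 - ε) * t.ne ≤ (AS t).vol) {p : PB} (hz : p.rz = 0)
    (hp : p.Crt s ρ τ) (hv : Hv M p.shape) : (2 * v8 - ε) * p.shape.ne ≤ 2 * π * (p.vl s).re := by
  rcases Nat.eq_zero_or_pos p.nc with h0 | h0
  · cases p with
    | vx b a z =>
      show (2 * v8 - ε) * ((0 : ℕ) : ℝ) ≤ 2 * π * (0 : ℂ).re
      simp
    | br t c =>
      exact absurd h0 (Nat.succ_ne_zero _)
  · have h1 := Pool.Agent.TH609.UV.geob ρ τ κ c s dl hK (cpb p) (cpb_crt s ρ τ p hp)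
      ⟨fun _ => by rw [cpb_rz]; exact hz, fun h => by rw [cpb_bl] at h; exact absurd h (by simp)⟩
      (by rw [cpb_nc]; exact h0)
    have h2 := h1.2 ⟨AS (cpb p).shape, as_shape _, as_ang hM _ (cpb_hv p hv), rfl⟩
    have h3 := hAS _ (cpb_hv p hv)
    rw [cpb_ne] at h3
    refine h3.trans (h2.trans (le_of_eq ?_))
    rw [cpb_bl, cpb_vl]
    unfold Pool.Agent.TH563.UV.vt
    simp

/-- the value at a configuration with circles at all vertices -/
lemma vl_all {ρ τ : ℝ} {s : ℂ → ℂ → ℂ} (p : PB) (hp : p.Crt s ρ τ)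
    (hc : AllC p.shape) (hz : p.rz = 0) : p.vl s = p.shape.ne * (s 0 0 + π * Complex.I) := by
  induction p with
  | vx b a z =>
    show (0 : ℂ) = ((0 : ℕ) : ℂ) * _
    simp
  | br t c iht ihc =>
    obtain ⟨h1, h2, h3⟩ := hp
    obtain ⟨c1, c2⟩ := hc
    have hz' : t.rz = 0 := hz
    have hb : c.bl = true := by
      rw [← shape_bl]
      exact allC_root _ c2
    have hcz : c.rz = 0 := h3.1 hb
    have e1 := iht h1 c1 hz'
    have e2 := ihc h2 c2 hcz
    show t.vl s + (Pool.Agent.TH563.UV.vt c.bl c.wt c.rz + c.vl s + s c.rz t.rz) =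
      ((t.shape.ne + c.shape.ne + 1 : ℕ) : ℂ) * _
    rw [e1, e2, hcz, hz', hb]
    unfold Pool.Agent.TH563.UV.vt
    push_cast
    simp only [if_true]
    ring

/-! ### The theorem -/

/-- the properties of the trees of the larger ring -/
def Okl (K : ℝ) (D : ℕ) (M : ℝ) (p : Tb × Tb) : Prop :=
  p.1.Below K ∧ p.2.Below K ∧ p.1.nc ≤ D ∧ p.2.nc ≤ D ∧
    (p.1.bl = false → M ≤ |(p.1.wt : ℝ)|) ∧ (p.2.bl = false → M ≤ |(p.2.wt : ℝ)|)

/-- the maximal volume -/
def MaxV (k : ℕ) (m : ℤ) (ss : List (Tb × Tb)) (V : ℝ) : Prop :=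
  ∀ r : ℕ → ℕ, (r = fun j => j) ∨ (r = fun j => rv (2 * k) j) →
    IsGreatest {W : ℝ | ∃ (y : ℕ → AB) (f g F G : ℕ → Fl),
      (∀ j < 2 * k, (y j).shape = tj ss (r j)) ∧ DAngC (2 * k) m y f g F G ∧
        dVol (2 * k) y f g F G = W} V

/-- upper bounds of the growth rate; the trees of `ts` are obtained from those of `ss` by removing
circles -/
def S_FUB : Prop := ∃ K : ℝ, 0 < K ∧ ∀ (k : ℕ) (m : ℤ), 1 ≤ k → 0 ≤ m →
    ¬ (k = 1 ∧ m = 0) → ∃ V₀ : ℝ, ∀ (D : ℕ) (ε₀ : ℝ), 0 < ε₀ → ∃ M : ℕ,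
    ∀ ss : List (Tb × Tb), ss.length = k → (∀ p ∈ ss, Okl K D M p) →
    ∃ V : ℝ, MaxV k m ss V ∧
      ((∀ j < 2 * k, Hv M (tj ss j)) →
        V₀ - ε₀ + (2 * v8 - ε₀) * ∑ j ∈ range (2 * k), ((tj ss j).ne : ℝ) ≤ V) ∧
      ((∀ j < 2 * k, AllC (tj ss j)) →
        V = V₀ + 2 * v8 * ∑ j ∈ range (2 * k), ((tj ss j).ne : ℝ)) ∧
      ∀ ts : List (Tb × Tb), ts.length = k → (∀ j < 2 * k, Sb (tj ts j) (tj ss j)) →
        ∀ ε : ℝ, 0 < ε → ∀ᶠ N : ℕ in atTop,
          ‖JD ts m N (vN N)‖ ≤ Real.exp (N * (V / (2 * π) + ε))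

theorem find_ub (hMAIN : S_MAINQ) : S_FUB := by
  have hπ := Real.pi_pos
  obtain ⟨ρ, τ, κ, cc, s, dl, hKD, K, hK, hTr⟩ := truf
  obtain ⟨g₀, hg₀, hgeo'⟩ := geocv Pool.Agent.Y710.CG.s0p ρ τ κ cc s dl hKD k0 (fun _ => 0)
    (fun _ _ _ => 0) 1 (fun n a => rfl) (fun b n a => Nat.zero_lt_one) (fun b n a h => absurd rfl h)
  refine ⟨K, hK, fun k m hk hm hkm => ?_⟩
  obtain ⟨χ₀, ρ₀, c, C, V₀, hZr, hSD, hM⟩ := hMAIN k m hk hm hkm
  refine ⟨2 * π * V₀, fun D ε₀ hε₀ => ?_⟩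
  obtain ⟨R₀, B₀, hR₀, hR₀τ, hB₀, hT⟩ := hTr D
  obtain ⟨ε, hε, hgeo⟩ := hgeo' χ₀ hZr
  choose! F hF1 hF2 hF3 using fun (t : Tb) (h : t.Below K ∧ t.nc ≤ D) => hT t h.1 h.2
  have hn : 0 < 2 * k := by omega
  have hsub : Rc R₀ R₀ ⊆ Rc ρ τ := by
    intro w hw
    exact ⟨hw.1.trans_le (hR₀τ.trans hKD.hτ.2), hw.2.trans_le hR₀τ⟩
  have hmem0 : (0 : ℂ) ∈ Rc ρ τ := by
    constructor
    · simpa using hKD.hρ.1
    · simpa using hKD.hτ.1
  -- the properties of the trees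
  have hPr : ∀ (M : ℝ) (ss : List (Tb × Tb)), ss.length = k → (∀ p ∈ ss, Okl K D M p) →
      ∀ j < 2 * k, ((tj ss j).Below K ∧ (tj ss j).nc ≤ D) ∧
        ((tj ss j).bl = false → M ≤ |((tj ss j).wt : ℝ)|) := by
    intro M ss hlen hss j hj
    refine tj_get ss (fun t => (t.Below K ∧ t.nc ≤ D) ∧ (t.bl = false → M ≤ |(t.wt : ℝ)|))
      (fun p hp => ?_) (by omega)
    obtain ⟨h1, h2, h3, h4, h5, h6⟩ := hss p hp
    exact ⟨⟨⟨h1, h3⟩, h5⟩, ⟨⟨h2, h4⟩, h6⟩⟩
  -- the class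
  have claim : ∀ ε' : ℝ, 0 < ε' → ∃ M : ℝ, ∀ ss : List (Tb × Tb), ss.length = k →
      (∀ p ∈ ss, p.1.Below K ∧ p.2.Below K ∧ p.1.nc ≤ D ∧ p.2.nc ≤ D) →
      (∀ j < 2 * k, (tj ss j).bl = false → M ≤ |((tj ss j).wt : ℝ)|) →
      ∀ v : ℕ → ℕ → ℂ → ℂ, (∀ j < 2 * k, CC R₀ B₀ (tj ss j).bl
        (fun ψ => F (tj ss j) ψ - F (tj ss j) 0) (v j)) → ∃ V : ℝ, MaxV k m ss V ∧
      Tendsto (fun N : ℕ => Real.log ‖ES N (lf k (fun j => (tj ss j).wt) v) m‖ / N) atTop
        (𝓝 (V / (2 * π) - ∑ j ∈ range (2 * k), (F (tj ss j) 0).re)) ∧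
      |V / (2 * π) - ∑ j ∈ range (2 * k), (F (tj ss j) 0).re - V₀| ≤ ε' := by
    intro ε' hε'
    obtain ⟨M, hMM⟩ := hM R₀ B₀ (min ε ε') hR₀ hB₀ (lt_min hε hε')
    refine ⟨M, fun ss hlen hss hsM v hv => ?_⟩
    have hP : ∀ j < 2 * k, (tj ss j).Below K ∧ (tj ss j).nc ≤ D := by
      intro j hj
      refine tj_get ss (fun t => (t.Below K ∧ t.nc ≤ D)) (fun p hp => ?_) (by omega)
      obtain ⟨h1, h2, h3, h4⟩ := hss p hp
      exact ⟨⟨h1, h3⟩, ⟨h2, h4⟩⟩
    choose! θ ε₁ Y hε₁ hθ hY hvY using hv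
    -- the common rate
    obtain ⟨e0, he0, he0'⟩ : ∃ e0 : ℝ, 0 < e0 ∧ ∀ j < 2 * k, e0 ≤ ε₁ j := by
      obtain ⟨e0, h1, h2⟩ := Pool.Agent.N518.RC.lb_ex (2 * k) (fun j => if j < 2 * k then ε₁ j else 1)
        (fun j _ => by
          by_cases h : j < 2 * k
          · simp only [h, if_true]; exact hε₁ j h
          · simp only [h, if_false]; exact one_pos)
      refine ⟨e0, h1, fun j hj => ?_⟩
      have := h2 j hj.le
      simpa only [hj, if_true] using this
    have hθ' : ∀ i N, ‖(fun i N => if i < 2 * k then θ i N else 0 : ℕ → ℕ → ℂ) i N‖ ≤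
        Real.exp (-(e0 * (N : ℝ))) := by
      intro i N
      by_cases h : i < 2 * k
      · simp only [h, if_true]
        refine (hθ i h N).trans (Real.exp_le_exp.2 ?_)
        have : e0 * (N : ℝ) ≤ ε₁ i * N := mul_le_mul_of_nonneg_right (he0' i h) (Nat.cast_nonneg N)
        linarith
      · simp only [h, if_false, norm_zero]
        exact (Real.exp_pos _).le
    obtain ⟨w, hw⟩ : ∃ w : ℕ → ℤ, w = fun j => (tj ss j).wt := ⟨_, rfl⟩
    rw [← hw]
    obtain ⟨z, χ, hRC, hz, hχ, hpos, hnear, hlim⟩ := hMM (lf k w v) (fun j => (tj ss j).bl)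
      (fun i N => if i < 2 * k then θ i N else 0) e0 Y
      (fun j ψ => F (tj ss j) ψ - F (tj ss j) 0) he0 hθ' (lf_len k w v)
      hY (fun j hj N ψ => by
        rw [vy_lf k w v hj, hvY j hj]
        simp only [hj, if_true])
      (fun j hj hbj => by
        rw [cw_lf k w v hj, hw]
        exact hsM j hj hbj)
    -- the critical configurations of the trees
    have hex : ∀ j, ∃ p : PB, j < 2 * k → p.shape = tj ss j ∧ p.rz = z j ∧
        p.Crt s ρ τ ∧ p.vl s = F (tj ss j) (z j) ∧ HasDerivAt (F (tj ss j)) (p.gs s) (z j) := by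
      intro j
      by_cases hj : j < 2 * k
      · obtain ⟨p, hp⟩ := hF2 _ (hP j hj) (z j) (hsub (hz j hj).1)
        exact ⟨p, fun _ => hp⟩
      · exact ⟨.vx false 0 0, fun h => absurd h hj⟩
    choose p hp using hex
    have hg : ∀ j < 2 * k, deriv (fun ψ => F (tj ss j) ψ - F (tj ss j) 0) (z j) =
        gg k0 (fun _ _ _ => 0) s 0 (p j) := by
      intro j hj
      rw [deriv_sub_const, gg0]
      exact (hp j hj).2.2.2.2.deriv
    have hwt : ∀ j < 2 * k, cw (wl (lf k w v)) j = (p j).wt := by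
      intro j hj
      rw [cw_lf k w v hj, hw]
      show (tj ss j).wt = _
      rw [← (hp j hj).1, shape_wt]
    have hbl : ∀ j < 2 * k, (tj ss j).bl = (p j).bl := by
      intro j hj
      rw [← (hp j hj).1, shape_bl]
    have hRC' : RCritC szz χ₀ ρ₀ (2 * k) (fun j => (p j).bl) (fun j => (p j).wt)
        (fun j => gg k0 (fun _ _ _ => 0) s 0 (p j)) m (fun j => (p j).rz) χ :=
      rcc_congr hn hbl hwt hg (fun j hj => (hp j hj).2.1.symm) hRC
    have hgen : ∀ r : ℕ → ℕ, (∀ j < 2 * k, r j < 2 * k) →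
        RCritC szz χ₀ ρ₀ (2 * k) (fun j => (p (r j)).bl) (fun j => (p (r j)).wt)
          (fun j => gg k0 (fun _ _ _ => 0) s 0 (p (r j))) m (fun j => (p (r j)).rz) χ →
        IsGreatest {W : ℝ | ∃ (y : ℕ → AB) (f g F G : ℕ → Fl),
          (∀ j < 2 * k, (y j).shape = tj ss (r j)) ∧ DAngC (2 * k) m y f g F G ∧
            dVol (2 * k) y f g F G = W}
          (2 * π * (RVal3 szz (2 * k) (fun j => (p (r j)).wt) m (fun j => (p (r j)).rz) χ +
            ∑ j ∈ range (2 * k), vg k0 (fun _ _ _ => 0) s 0 (p (r j))).re) := by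
      intro r hr hR
      have hgr := hgeo ρ₀ c C hSD (2 * k) m (fun j => p (r j)) χ (by omega) (fun j hj => ⟨
          cg0 _ _ s ρ τ g₀ _ (hp _ (hr j hj)).2.2.1, by
          rw [(hp _ (hr j hj)).2.1]; exact hsub (hz _ (hr j hj)).1, by
          rw [(hp _ (hr j hj)).2.1]
          exact (hz _ (hr j hj)).2.trans (min_le_left _ _)⟩) (hχ.trans (min_le_left _ _)) hR
      have hset : {W : ℝ | ∃ (y : ℕ → AB) (f g F G : ℕ → Fl),
          (∀ j < 2 * k, (y j).shape = tj ss (r j)) ∧ DAngC (2 * k) m y f g F G ∧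
            dVol (2 * k) y f g F G = W} =
          {W : ℝ | ∃ (y : ℕ → AB) (f g F G : ℕ → Fl), (∀ j < 2 * k, (y j).shape = (p (r j)).shape) ∧
            DAngC (2 * k) m y f g F G ∧ dVol (2 * k) y f g F G = W} := by
        ext W
        constructor
        · rintro ⟨y, f, g, F', G, h1, h2⟩
          exact ⟨y, f, g, F', G, fun j hj => by rw [h1 j hj, (hp _ (hr j hj)).1], h2⟩
        · rintro ⟨y, f, g, F', G, h1, h2⟩
          exact ⟨y, f, g, F', G, fun j hj => by rw [h1 j hj, (hp _ (hr j hj)).1], h2⟩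
      rw [hset]
      exact hgr
    set V : ℝ := 2 * π * (RVal3 szz (2 * k) (fun j => (p j).wt) m (fun j => (p j).rz) χ +
      ∑ j ∈ range (2 * k), vg k0 (fun _ _ _ => 0) s 0 (p j)).re with hV
    have hVL : V / (2 * π) - ∑ j ∈ range (2 * k), (F (tj ss j) 0).re =
        (RVal3 szz (2 * k) (cw (wl (lf k w v))) m z χ +
        ∑ j ∈ range (2 * k), (fun j ψ => F (tj ss j) ψ - F (tj ss j) 0) j (z j)).re := by
      rw [hV, rval_congr hn hwt (fun j hj => ((hp j hj).2.1.symm : z j = (p j).rz))]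
      have e1 : ∑ j ∈ range (2 * k), vg k0 (fun _ _ _ => 0) s 0 (p j) =
          ∑ j ∈ range (2 * k), F (tj ss j) (z j) :=
        sum_congr rfl fun j hj => by
          rw [vg0]
          exact (hp j (mem_range.1 hj)).2.2.2.1
      rw [e1, mul_div_cancel_left₀ _ (by positivity), sum_sub_distrib, Complex.add_re,
        Complex.add_re, Complex.sub_re, Complex.re_sum, Complex.re_sum]
      ring
    refine ⟨V, ?_, ?_, ?_⟩
    · rintro r (rfl | rfl)
      · exact hgen (fun j => j) (fun j hj => hj) hRC'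
      · have h1 := hgen (fun j => rv (2 * k) j) (fun j _ => rv_lt hn j) (rcc_rev hSD hn hRC')
        have h2 := rvalc_rev hSD hn hRC'
        have h3 : ∑ j ∈ range (2 * k), vg k0 (fun _ _ _ => 0) s 0 (p (rv (2 * k) j)) =
            ∑ j ∈ range (2 * k), vg k0 (fun _ _ _ => 0) s 0 (p j) :=
          sum_rv hn fun j => vg k0 (fun _ _ _ => 0) s 0 (p j)
        rw [h2, h3] at h1
        exact h1
    · rw [hVL]
      exact hlim
    · rw [hVL]
      exact hnear.trans (min_le_right _ _)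
  -- the constants
  obtain ⟨M₁, hM₁⟩ := claim (ε₀ / (2 * π)) (by positivity)
  obtain ⟨M₂, hM₂, hAS⟩ := as_vol hε₀
  refine ⟨max ⌈M₁⌉₊ M₂, fun ss hlen hss => ?_⟩
  have hMM1 : M₁ ≤ ((max ⌈M₁⌉₊ M₂ : ℕ) : ℝ) :=
    (Nat.le_ceil M₁).trans (by exact_mod_cast le_max_left _ _)
  have hP := hPr _ ss hlen hss
  have hss' : ∀ p ∈ ss, p.1.Below K ∧ p.2.Below K ∧ p.1.nc ≤ D ∧ p.2.nc ≤ D := fun p hp => by
    obtain ⟨h1, h2, h3, h4, -⟩ := hss p hp
    exact ⟨h1, h2, h3, h4⟩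
  -- the tree functions of `ss`
  have hCC : ∀ j < 2 * k, CC R₀ B₀ (tj ss j).bl (fun ψ => F (tj ss j) ψ - F (tj ss j) 0)
      ((fun j N ψ => Ub (tj ss j).bl N ψ * (XX (tj ss j) N ψ *
        Complex.exp (-(N * F (tj ss j) 0))) : ℕ → ℕ → ℂ → ℂ) j) := by
    intro j hj
    refine ⟨fun _ => 0, 1, fun N ψ => XX (tj ss j) N ψ * Complex.exp (-(N * F (tj ss j) 0)),
      one_pos, fun N => ?_, hF1 _ (hP j hj).1, fun N ψ => ?_⟩
    · rw [norm_zero]; exact (Real.exp_pos _).le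
    · rw [Uq_zero]
  obtain ⟨V, hV1, -, hV3⟩ := hM₁ ss hlen hss' (fun j hj h => hMM1.trans ((hP j hj).2 h)) _ hCC
  -- configurations with the root at zero
  have hcf : ∀ j < 2 * k, ∃ p : PB, p.shape = tj ss j ∧ p.rz = 0 ∧ p.Crt s ρ τ ∧
      p.vl s = F (tj ss j) 0 := by
    intro j hj
    obtain ⟨p, h1, h2, h3, h4, -⟩ := hF2 _ (hP j hj).1 0 hmem0
    exact ⟨p, h1, h2, h3, h4⟩
  refine ⟨V, hV1, fun hHv => ?_, fun hAll => ?_, fun ts htl hts δ hδ => ?_⟩
  · have e1 : (2 * v8 - ε₀) * ∑ j ∈ range (2 * k), ((tj ss j).ne : ℝ) ≤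
        2 * π * ∑ j ∈ range (2 * k), (F (tj ss j) 0).re := by
      rw [mul_sum, mul_sum]
      refine sum_le_sum fun j hj => ?_
      rw [mem_range] at hj
      obtain ⟨p, h1, h2, h3, h4⟩ := hcf j hj
      have hmono : ∀ t : Tb, Hv (max ⌈M₁⌉₊ M₂) t → Hv M₂ t := by
        intro t
        induction t with
        | vx b a =>
          intro h
          rcases h with h | h
          · exact Or.inl h
          · refine Or.inr (le_trans ?_ h)
            exact_mod_cast le_max_right _ _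
        | br t c ht hc => exact fun h => ⟨ht h.1, hc h.2⟩
      have h5 := vl_low hKD hM₂ hAS h2 h3 (by rw [h1]; exact hmono _ (hHv j hj))
      rw [h1, h4] at h5
      exact h5
    have e2 := (abs_le.1 hV3).1
    have e3 : 2 * π * (V / (2 * π) - ∑ j ∈ range (2 * k), (F (tj ss j) 0).re - V₀) =
        V - 2 * π * ∑ j ∈ range (2 * k), (F (tj ss j) 0).re - 2 * π * V₀ := by
      field_simp
    have e4 := mul_le_mul_of_nonneg_left e2 (show (0 : ℝ) ≤ 2 * π by positivity)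
    have e5 : 2 * π * -(ε₀ / (2 * π)) = -ε₀ := by field_simp
    rw [e3, e5] at e4
    linarith
  · -- circles at all vertices
    have e1 : 2 * π * ∑ j ∈ range (2 * k), (F (tj ss j) 0).re =
        2 * v8 * ∑ j ∈ range (2 * k), ((tj ss j).ne : ℝ) := by
      rw [mul_sum, mul_sum]
      refine sum_congr rfl fun j hj => ?_
      rw [mem_range] at hj
      obtain ⟨p, h1, h2, h3, h4⟩ := hcf j hj
      rw [← h4, vl_all p h3 (by rw [h1]; exact hAll j hj) h2, h1, hKD.zero, ← bet_v8]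
      have e : (((tj ss j).ne : ℂ) * (((2 * bet : ℝ) : ℂ) + π * Complex.I)).re =
          (tj ss j).ne * (2 * bet) := by
        rw [show (((tj ss j).ne : ℕ) : ℂ) = (((tj ss j).ne : ℝ) : ℂ) by push_cast; rfl,
          Complex.re_ofReal_mul, Complex.add_re, Complex.ofReal_re, Complex.re_ofReal_mul,
          Complex.I_re, mul_zero, add_zero]
      rw [e]
      ring
    have e2 : ∀ e' : ℝ, 0 < e' → |V / (2 * π) - ∑ j ∈ range (2 * k), (F (tj ss j) 0).re - V₀| ≤ e' := by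
      intro e' he'
      obtain ⟨M', hM'⟩ := claim e' he'
      obtain ⟨V', g1, -, g3⟩ := hM' ss hlen hss' (fun j hj h => by
        rw [allC_root _ (hAll j hj)] at h
        exact absurd h (by simp)) _ hCC
      have : V' = V := (g1 _ (Or.inl rfl)).unique (hV1 _ (Or.inl rfl))
      rwa [this] at g3
    have e3 : |V / (2 * π) - ∑ j ∈ range (2 * k), (F (tj ss j) 0).re - V₀| = 0 := by
      refine le_antisymm (le_of_forall_pos_le_add fun e' he' => ?_) (abs_nonneg _)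
      rw [zero_add]
      exact e2 e' he'
    rw [abs_eq_zero] at e3
    rw [← e1]
    have e4 : V = 2 * π * (V / (2 * π)) := by field_simp
    have e5 : V / (2 * π) = ∑ j ∈ range (2 * k), (F (tj ss j) 0).re + V₀ := by linarith
    rw [e4, e5]
    ring
  · obtain ⟨w, hw⟩ : ∃ w : ℕ → ℤ, w = fun j => (tj ss j).wt := ⟨_, rfl⟩
    obtain ⟨S0, hS0⟩ : ∃ S0 : ℝ, S0 = ∑ j ∈ range (2 * k), (F (tj ss j) 0).re := ⟨_, rfl⟩
    have hGr : ∀ v : ℕ → ℕ → ℂ → ℂ, (∀ j < 2 * k, TT R₀ B₀ (tj ss j).bl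
        (fun ψ => F (tj ss j) ψ - F (tj ss j) 0) (v j)) → Gr k w m (V / (2 * π) - S0) v := by
      refine hyb fun v hv => ?_
      obtain ⟨V', h1, h2, -⟩ := hM₁ ss hlen hss' (fun j hj h => hMM1.trans ((hP j hj).2 h)) v hv
      have e : V' = V := (h1 _ (Or.inl rfl)).unique (hV1 _ (Or.inl rfl))
      rw [e, ← hS0, ← hw] at h2
      exact gr_of h2
    -- the ring with fewer circles
    obtain ⟨u, hu⟩ : ∃ u : ℕ → ℕ → ℂ → ℂ, u = fun j N ψ => Ub (tj ts j).bl N ψ * XX (tj ts j) N ψ *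
        Complex.exp (-(N * F (tj ss j) 0)) := ⟨_, rfl⟩
    have hTT : ∀ j < 2 * k, TT R₀ B₀ (tj ss j).bl (fun ψ => F (tj ss j) ψ - F (tj ss j) 0)
        (u j) := by
      intro j hj
      obtain ⟨q1, q2, q3, q4⟩ := sb_props _ _ (hts j hj)
      obtain ⟨h1, h2⟩ := hF3 _ (hP j hj).1 _ (hts j hj)
      refine ⟨fun N ψ => XX (tj ts j) N ψ * Complex.exp (-(N * F (tj ss j) 0)), (tj ts j).bl,
        ⟨fun N => (h1 N).mul_const _, fun N ψ => XX (tj ss j) N ψ *
          Complex.exp (-(N * F (tj ss j) 0)), hF1 _ (hP j hj).1, fun e he => ?_⟩, q2,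
        fun N ψ => ?_⟩
      · have h3 := h2 e he
        have e1 : mix e (fun N ψ => XX (tj ss j) N ψ * Complex.exp (-(N * F (tj ss j) 0)))
            (fun N ψ => XX (tj ts j) N ψ * Complex.exp (-(N * F (tj ss j) 0))) =
            fun N ψ => mix e (XX (tj ss j)) (XX (tj ts j)) N ψ *
              Complex.exp (-(N * F (tj ss j) 0)) := by
          funext N ψ
          unfold mix
          ring
        rw [e1]
        exact h3
      · rw [hu]
        ring
    have hfin := hGr u hTT (δ / 2) (by positivity)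
    have hpow : ∀ᶠ N : ℕ in atTop, ((N : ℝ) ^ 2 / (2 * π)) ^ nel ts ≤ Real.exp (N * (δ / 2)) := by
      filter_upwards [Pool.Agent.TH563.UB.pow_ev (2 * nel ts) (show 0 < δ / 2 by positivity)] with
        N h1
      refine le_trans ?_ (h1.trans (le_of_eq (by congr 1; ring)))
      rw [pow_mul]
      apply pow_le_pow_left₀ (by positivity)
      apply div_le_self (by positivity)
      have := Real.pi_gt_three
      linarith
    filter_upwards [hfin, hpow, eventually_ge_atTop 2] with N h1 h2 hN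
    have hts0 : ts ≠ [] := by
      intro h
      rw [h] at htl
      simp at htl
      omega
    have hA : ‖ES N (lf k w u) m‖ = Real.exp (-(N * S0)) * ‖ES N (tvcl ts) m‖ := by
      have e1 : lf k w u = scl (tvcl ts) ((List.range k).map fun i =>
          ((fun (j N : ℕ) => Complex.exp (-(N * F (tj ss j) 0))) (2 * i),
            (fun (j N : ℕ) => Complex.exp (-(N * F (tj ss j) 0))) (2 * i + 1))) := by
        have e2 := lf_scl k (fun j => (tj ts j).wt) (fun j N ψ => Ub (tj ts j).bl N ψ *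
          XX (tj ts j) N ψ) (fun (j N : ℕ) => Complex.exp (-(N * F (tj ss j) 0)))
        rw [tvcl_lf, htl]
        refine Eq.trans ?_ e2
        rw [hu]
        refine lf_congr (fun j hj => ?_) fun j hj => rfl
        rw [hw]
        exact (sb_props _ _ (hts j hj)).1.symm
      rw [e1, Pool.Agent.Y407.DR.t_scl N (tvcl ts) _ m (by omega) (by simp [tvcl, htl]), norm_mul,
        prod_e k N (fun (j N : ℕ) => Complex.exp (-(N * F (tj ss j) 0))), norm_prod]
      congr 1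
      simp only [Complex.norm_exp]
      rw [← Real.exp_sum]
      congr 1
      rw [hS0, mul_sum, ← sum_neg_distrib]
      refine sum_congr rfl fun j _ => ?_
      rw [Complex.neg_re, show ((N : ℂ)) = ((N : ℝ) : ℂ) by push_cast; rfl, Complex.re_ofReal_mul]
    have hE : ‖ES N (tvcl ts) m‖ = Real.exp (N * S0) * ‖ES N (lf k w u) m‖ := by
      rw [hA, ← mul_assoc, ← Real.exp_add, add_neg_cancel, Real.exp_zero, one_mul]
    rw [exc N ts m hN hts0, hE]
    calc ((N : ℝ) ^ 2 / (2 * π)) ^ nel ts * (Real.exp (N * S0) * ‖ES N (lf k w u) m‖)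
        ≤ Real.exp (N * (δ / 2)) * (Real.exp (N * S0) *
          Real.exp (N * (V / (2 * π) - S0 + δ / 2))) := by
          refine mul_le_mul h2 (mul_le_mul_of_nonneg_left h1 (Real.exp_pos _).le) (by positivity)
            (Real.exp_pos _).le
      _ = Real.exp (N * (V / (2 * π) + δ)) := by
          rw [← Real.exp_add, ← Real.exp_add]
          congr 1
          ring

/-- **the upper bound** -/
theorem find_ubq : S_FUB := find_ub mainq

end Pool.Agent.N518.UB
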