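import Pool.Agent.TH563.UB.Fill
import Pool.Agent.Y333.DR.Tru

/-!
# The functions of the trees: comparison with the trees with more crossing circles
-/

set_option autoImplicit false
set_option maxHeartbeats 1000000

namespace Pool.Agent.N518.UB

open Finset Filter Topology Metric
open Pool.Agent.W711.HT hiding XX
open Pool.Agent.Y481.DR
open Pool.Agent.TH563.UV
open Pool.Agent.TH563.Z (kd_kappa)
open Pool.Agent.TH563.UB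
open Pool.Agent.W293.HT
open Pool.Agent.W719.AX (UX GX KXD)
open Pool.Agent.Y333.DR (dg_of)
open scoped Real

/-- the real part of the growth rate is determined by the functions -/
lemma mw_uniq {X : ℕ → ℂ → ℂ} {F G : ℂ → ℂ} {U : Set ℂ} (h1 : MW X F U) (h2 : MW X G U) {z : ℂ}
    (hz : z ∈ U) : (F z).re = (G z).re := by
  by_contra hne
  have hp : 0 < |(F z).re - (G z).re| := abs_pos.2 (sub_ne_zero.2 hne)
  obtain ⟨N, ⟨a1, a2⟩, hN⟩ := ((h1 (|(F z).re - (G z).re| / 4) (by positivity)).and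
    (h2 (|(F z).re - (G z).re| / 4) (by positivity))).and (eventually_ge_atTop 1) |>.exists
  have hNp : (0 : ℝ) < N := by exact_mod_cast hN
  obtain ⟨-, b1⟩ := a1 z hz
  obtain ⟨-, b2⟩ := a2 z hz
  have e : N * ((F z).re - (G z).re) = (Real.log ‖X N z‖ - N * (G z).re) -
      (Real.log ‖X N z‖ - N * (F z).re) := by ring
  have h3 : |N * ((F z).re - (G z).re)| ≤ N * (|(F z).re - (G z).re| / 4) +
      N * (|(F z).re - (G z).re| / 4) := by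
    rw [e]
    refine (abs_sub _ _).trans (add_le_add (b2.trans_eq (mul_comm _ _)) (b1.trans_eq (mul_comm _ _)))
  rw [abs_mul, abs_of_pos hNp] at h3
  nlinarith

lemma ug_congr {ρ τ κ : ℝ} (hρ : 0 < ρ) (hτ : 0 < τ) {t : ℕ} {X : ℕ → ℂ → ℂ} {F G : ℂ → ℂ}
    (h : UG ρ τ κ t X F)
    (hFG : ∀ z ∈ Rc (2 * ρ) (2 * τ), (F z).re = (G z).re) : UG ρ τ κ t X G := by
  have h0 : (0 : ℂ) ∈ Rc (2 * ρ) (2 * τ) := zero_mem_Rc (by linarith) (by linarith)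
  refine ⟨h.an, h.ev, fun ε hε => ?_, fun ε hε => ?_⟩
  · filter_upwards [h.up ε hε] with N h1 z hz
    rw [← hFG z hz]
    exact h1 z hz
  · rw [← hFG 0 h0]
    exact h.gl ε hε

/-- the functions of the trees -/
theorem truf : ∃ (ρ τ κ c : ℝ) (s dl : ℂ → ℂ → ℂ), KD ρ τ κ c s dl ∧ ∃ K : ℝ, 0 < K ∧
    ∀ D : ℕ, ∃ R₀ B₀ : ℝ, 0 < R₀ ∧ R₀ ≤ τ ∧ 0 < B₀ ∧ ∀ t : Tb, t.Below K → t.nc ≤ D →
      ∃ F : ℂ → ℂ,
        DG R₀ B₀ (fun N ψ => XX t N ψ * Complex.exp (-(N * F 0))) (fun ψ => F ψ - F 0) ∧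
        (∀ ψ ∈ Rc ρ τ, ∃ p : PB, p.shape = t ∧ p.rz = ψ ∧ p.Crt s ρ τ ∧ p.vl s = F ψ ∧
          HasDerivAt F (p.gs s) ψ) ∧
        ∀ t' : Tb, Sb t' t → (∀ N, Differentiable ℂ (XX t' N)) ∧ ∀ ε : ℝ, 0 < ε →
          DG R₀ B₀ (fun N ψ => mix ε (XX t) (XX t') N ψ * Complex.exp (-(N * F 0)))
            (fun ψ => F ψ - F 0) := by
  obtain ⟨ρ, τ, κ₀, c, s, dl, hK₀⟩ := Pool.Agent.W719.AR.f_KER
  have hτ := hK₀.hτ.1
  have hρ := hK₀.hρ.1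
  have hc := hK₀.hc
  have hκ0 : 0 < min κ₀ (min (c * τ ^ 2) 1) := lt_min hK₀.hκ.1 (lt_min (by positivity) one_pos)
  have hK : KD ρ τ (min κ₀ (min (c * τ ^ 2) 1)) c s dl := kd_kappa hK₀ hκ0 (min_le_left _ _)
  have hκb : min κ₀ (min (c * τ ^ 2) 1) ≤ c * τ ^ 2 := (min_le_right _ _).trans (min_le_left _ _)
  have hκc : min κ₀ (min (c * τ ^ 2) 1) ≤ 1 := (min_le_right _ _).trans (min_le_right _ _)
  generalize min κ₀ (min (c * τ ^ 2) 1) = κ at *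
  have hκ8 : κ ≤ 8 * c * τ ^ 2 := by
    have : 0 < c * τ ^ 2 := by positivity
    linarith
  obtain ⟨ρ₂, τ₂, hρ₂, hτ₂, Ak, hAk⟩ :=
    Pool.Agent.W719.AX.f_KXC Pool.Agent.W719.AX.f_WIN ρ τ κ c s dl hK
  obtain ⟨ε₀, K, hε, hε1, hK0, hre, h1, h2⟩ := f_STEPU ρ τ κ c s dl hK ρ₂ τ₂ Ak hρ₂ hτ₂ hAk
  obtain ⟨b1, b2⟩ := Pool.Agent.TH929.stepb ρ τ κ c s dl hK ρ₂ τ₂ Ak hρ₂ hτ₂ hAk ε₀ hε hε1 hre
  obtain ⟨h0, hp⟩ := f_PRU ρ τ κ c s dl hK ε₀ hε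
  obtain ⟨h0x, hpx⟩ := Pool.Agent.W52.AX.prdx Pool.Agent.W303.AX.uxmul ρ₂ τ₂
  obtain ⟨C, hC⟩ := hK.sbd
  have hs : Rc ρ₂ τ₂ ⊆ Rc (2 * ρ) (2 * τ) := Rc_mono (by linarith) (by linarith)
  refine ⟨ρ, τ, κ, c, s, dl, hK, K, hK0, fun D => ?_⟩
  refine ⟨τ, D * (2 * |C| + ε₀) + 1, hτ, le_rfl, by positivity, fun t hB hD => ?_⟩
  obtain ⟨F, A, hG, hA, hcr⟩ := mainu_ind hK h0 hp h0x hpx h1 b1 t hB
  refine ⟨F, dg_of hK hε hε1 hκ8 hre hC hD hG, fun ψ hψ => ?_, fun t' ht' => ?_⟩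
  · have hsub : Rc ρ τ ⊆ Rc (3 * ρ) (3 * τ) := Rc_mono (by linarith) (by linarith)
    obtain ⟨p, hp1, hp2, hp3, hp4, hp5⟩ := hcr ψ (hsub hψ)
    exact ⟨p, hp1, hp2, hp3, hp4.symm, hp5⟩
  · obtain ⟨F', A', g1, g2, g3⟩ := fill_ind hK (by linarith) (by linarith) hC hs h0 hp h0x hpx h1 b1
      t hB t' ht'
    refine ⟨g3.an, fun ε hε' => ?_⟩
    have hu : UG ρ τ κ t.nc (XX t') F := ug_congr hρ hτ g3 fun z hz => mw_uniq g1.mw hG.mw hz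
    exact dg_of hK hε hε1 hκ8 hre hC hD (mix_good hG hu hε')

end Pool.Agent.N518.UB
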