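import Pool.Agent.N518.UB.Lin
import Pool.Agent.N518.UB.Tree

/-!
# Upper bounds for the exact expression, one vertex after the other
-/

set_option autoImplicit false
set_option linter.all false

namespace Pool.Agent.N518.UB

open Finset Filter Topology Metric
open Pool.Agent.W711.HT hiding XX
open Pool.Agent.Y472 Pool.Agent.Y481.DR
open Pool.Agent.TH563.UV (UN)
open Pool.Agent.TH563.UB (mix const_ev)
open Pool.Agent.TH219.J139 (Ub Ub_diff)
open scoped Real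

/-- the growth rate is at most `V` -/
def Gr (k : ℕ) (w : ℕ → ℤ) (m : ℤ) (V : ℝ) (v : ℕ → ℕ → ℂ → ℂ) : Prop :=
  ∀ ε : ℝ, 0 < ε → ∀ᶠ N : ℕ in atTop, ‖ES N (lf k w v) m‖ ≤ Real.exp (N * (V + ε))

/-- combinations with coefficients of small growth -/
lemma clo {k : ℕ} {w : ℕ → ℤ} {m : ℤ} {V : ℝ} {v : ℕ → ℕ → ℂ → ℂ} {j₀ : ℕ} (hj : j₀ < 2 * k)
    {u : ℕ → ℂ → ℂ}
    (h : ∀ ε : ℝ, 0 < ε → ∃ (v₁ v₂ : ℕ → ℂ → ℂ) (c₁ c₂ : ℕ → ℂ), (∀ N, Differentiable ℂ (v₁ N)) ∧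
      (∀ N, Differentiable ℂ (v₂ N)) ∧ (∀ N : ℕ, ‖c₁ N‖ ≤ 2 * Real.exp (ε * N)) ∧
      (∀ N : ℕ, ‖c₂ N‖ ≤ 2 * Real.exp (ε * N)) ∧
      (∀ N ψ, u N ψ = c₁ N * v₁ N ψ + c₂ N * v₂ N ψ) ∧
      Gr k w m V (Function.update v j₀ v₁) ∧ Gr k w m V (Function.update v j₀ v₂)) :
    Gr k w m V (Function.update v j₀ u) := by
  intro ε hε
  obtain ⟨v₁, v₂, c₁, c₂, d1, d2, n1, n2, e, g1, g2⟩ := h (ε / 4) (by positivity)
  filter_upwards [g1 (ε / 4) (by positivity), g2 (ε / 4) (by positivity),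
    const_ev 4 (show 0 < ε / 4 by positivity), eventually_ge_atTop 1] with N a1 a2 a3 hN
  have hN0 : (0 : ℝ) ≤ N := Nat.cast_nonneg N
  have hl := ES_lin (N := N) (k := k) (j₀ := j₀) (w := w) (v := Function.update v j₀ u)
    (v₁ := Function.update v j₀ v₁) (v₂ := Function.update v j₀ v₂) (c := c₁ N) (d := c₂ N) hN hj
    (fun j hjj => by
      rw [Function.update_of_ne hjj, Function.update_of_ne hjj, Function.update_of_ne hjj]
      exact ⟨rfl, rfl⟩)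
    (by rw [Function.update_self]; exact d1 N) (by rw [Function.update_self]; exact d2 N)
    (fun ψ => by
      rw [Function.update_self, Function.update_self, Function.update_self]
      exact e N ψ) m
  rw [hl]
  refine (norm_add_le _ _).trans ?_
  rw [norm_mul, norm_mul]
  have b1 := mul_le_mul (n1 N) a1 (norm_nonneg _) (by positivity)
  have b2 := mul_le_mul (n2 N) a2 (norm_nonneg _) (by positivity)
  refine (add_le_add b1 b2).trans ?_
  have e1 : 2 * Real.exp (ε / 4 * N) * Real.exp (N * (V + ε / 4)) +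
      2 * Real.exp (ε / 4 * N) * Real.exp (N * (V + ε / 4)) =
      4 * (Real.exp (ε / 4 * N) * Real.exp (N * (V + ε / 4))) := by ring
  rw [e1]
  refine (mul_le_mul_of_nonneg_right a3 (by positivity)).trans ?_
  rw [← Real.exp_add, ← Real.exp_add]
  refine Real.exp_le_exp.2 ?_
  nlinarith

/-- the functions of the vertices for which the asymptotics is known -/
def CC (R₀ B₀ : ℝ) (b : Bool) (F : ℂ → ℂ) (v : ℕ → ℂ → ℂ) : Prop :=
  ∃ (θ : ℕ → ℂ) (ε₁ : ℝ) (Y : ℕ → ℂ → ℂ), 0 < ε₁ ∧ (∀ N : ℕ, ‖θ N‖ ≤ Real.exp (-(ε₁ * N))) ∧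
    DG R₀ B₀ Y F ∧ ∀ N ψ, v N ψ = Uq b (θ N) N ψ * Y N ψ

/-- the functions whose mixtures are in the class `DG` -/
def Cmp (R₀ B₀ : ℝ) (F : ℂ → ℂ) (X : ℕ → ℂ → ℂ) : Prop :=
  (∀ N, Differentiable ℂ (X N)) ∧ ∃ Y : ℕ → ℂ → ℂ, DG R₀ B₀ Y F ∧
    ∀ ε : ℝ, 0 < ε → DG R₀ B₀ (mix ε Y X) F

/-- the functions of the vertices of the ring with fewer circles -/
def TT (R₀ B₀ : ℝ) (b : Bool) (F : ℂ → ℂ) (v : ℕ → ℂ → ℂ) : Prop :=
  ∃ (X : ℕ → ℂ → ℂ) (b' : Bool), Cmp R₀ B₀ F X ∧ (b' = true → b = true) ∧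
    ∀ N ψ, v N ψ = Ub b' N ψ * X N ψ

lemma mix_inv (ε : ℝ) (Y X : ℕ → ℂ → ℂ) (N : ℕ) (ψ : ℂ) :
    X N ψ = (Real.exp (ε * N) : ℂ) * (2 * mix ε Y X N ψ - Y N ψ) := by
  have hex : ((Real.exp (ε * N) : ℝ) : ℂ) * ((Real.exp (-(ε * N)) : ℝ) : ℂ) = 1 := by
    rw [← Complex.ofReal_mul, ← Real.exp_add, add_neg_cancel, Real.exp_zero, Complex.ofReal_one]
  unfold mix
  linear_combination (-(X N ψ)) * hex

section

variable {R₀ B₀ : ℝ} {b : Bool} {F : ℂ → ℂ} {k : ℕ} {w : ℕ → ℤ} {m : ℤ} {V : ℝ}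
  {v : ℕ → ℕ → ℂ → ℂ} {j₀ : ℕ}

/-- the same circle -/
lemma step_same (hj : j₀ < 2 * k)
    (hC : ∀ u, CC R₀ B₀ b F u → Gr k w m V (Function.update v j₀ u)) {X : ℕ → ℂ → ℂ}
    (hX : Cmp R₀ B₀ F X) {θ : ℕ → ℂ} {ε₁ : ℝ} (hε₁ : 0 < ε₁)
    (hθ : ∀ N : ℕ, ‖θ N‖ ≤ Real.exp (-(ε₁ * N))) :
    Gr k w m V (Function.update v j₀ fun N ψ => Uq b (θ N) N ψ * X N ψ) := by
  obtain ⟨hXd, Y, hY, hm⟩ := hX
  refine clo hj fun ε hε => ?_
  refine ⟨fun N ψ => Uq b (θ N) N ψ * mix ε Y X N ψ, fun N ψ => Uq b (θ N) N ψ * Y N ψ,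
    fun N => 2 * (Real.exp (ε * N) : ℂ), fun N => -(Real.exp (ε * N) : ℂ),
    fun N => (Uq_diff b (θ N) N).mul ((hm ε hε).sub.an N),
    fun N => (Uq_diff b (θ N) N).mul (hY.sub.an N), fun N => ?_, fun N => ?_, fun N ψ => ?_,
    hC _ ⟨θ, ε₁, _, hε₁, hθ, hm ε hε, fun N ψ => rfl⟩, hC _ ⟨θ, ε₁, _, hε₁, hθ, hY, fun N ψ => rfl⟩⟩
  · rw [norm_mul, Complex.norm_real, Real.norm_eq_abs, abs_of_pos (Real.exp_pos _)]
    norm_num
  · rw [norm_neg, Complex.norm_real, Real.norm_eq_abs, abs_of_pos (Real.exp_pos _)]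
    have := Real.exp_pos (ε * N)
    linarith
  · rw [mix_inv ε Y X N ψ]
    ring

/-- all circles -/
lemma step_tt (hj : j₀ < 2 * k)
    (hC : ∀ u, CC R₀ B₀ b F u → Gr k w m V (Function.update v j₀ u)) {u : ℕ → ℂ → ℂ}
    (hu : TT R₀ B₀ b F u) : Gr k w m V (Function.update v j₀ u) := by
  obtain ⟨X, b', hX, hb, hv⟩ := hu
  have h0 : ∀ N : ℕ, ‖(fun _ => 0 : ℕ → ℂ) N‖ ≤ Real.exp (-(1 * (N : ℝ))) := fun N => by
    rw [norm_zero]
    exact (Real.exp_pos _).le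
  by_cases hbb : b' = b
  · subst hbb
    have h1 := step_same hj hC hX one_pos h0
    have e : u = fun N ψ => Uq b' ((fun _ => 0 : ℕ → ℂ) N) N ψ * X N ψ := by
      funext N ψ
      rw [Uq_zero, hv]
    rw [e]
    exact h1
  · have hb1 : b' = false := by
      cases b' with
      | false => rfl
      | true => exact absurd (hb rfl).symm hbb
    have hb2 : b = true := by
      cases b with
      | false => exact absurd hb1 hbb
      | true => rfl
    subst hb1 hb2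
    refine clo hj fun ε hε => ?_
    refine ⟨fun N ψ => Uq true ((fun N : ℕ => ((Real.exp (-(ε * N)) : ℝ) : ℂ)) N) N ψ * X N ψ,
      fun N ψ => Uq true ((fun _ => 0 : ℕ → ℂ) N) N ψ * X N ψ,
      fun N => (Real.exp (ε * N) : ℂ), fun N => -(Real.exp (ε * N) : ℂ),
      fun N => (Uq_diff true _ N).mul (hX.1 N),
      fun N => (Uq_diff true _ N).mul (hX.1 N), fun N => ?_, fun N => ?_, fun N ψ => ?_,
      step_same hj hC hX hε (fun N => ?_), step_same hj hC hX one_pos h0⟩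
    · rw [Complex.norm_real, Real.norm_eq_abs, abs_of_pos (Real.exp_pos _)]
      have := Real.exp_pos (ε * N)
      linarith
    · rw [norm_neg, Complex.norm_real, Real.norm_eq_abs, abs_of_pos (Real.exp_pos _)]
      have := Real.exp_pos (ε * N)
      linarith
    · have hex : ((Real.exp (ε * N) : ℝ) : ℂ) * ((Real.exp (-(ε * N)) : ℝ) : ℂ) = 1 := by
        rw [← Complex.ofReal_mul, ← Real.exp_add, add_neg_cancel, Real.exp_zero, Complex.ofReal_one]
      have hU : Ub false N ψ = 1 := by unfold Ub; simp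
      rw [hv, hU]
      simp only [Uq_true]
      linear_combination (-(X N ψ)) * hex
    · rw [Complex.norm_real, Real.norm_eq_abs, abs_of_pos (Real.exp_pos _)]

end

/-- one vertex after the other -/
theorem hyb {R₀ B₀ : ℝ} {b : ℕ → Bool} {F : ℕ → ℂ → ℂ} {k : ℕ} {w : ℕ → ℤ} {m : ℤ} {V : ℝ}
    (h : ∀ v : ℕ → ℕ → ℂ → ℂ, (∀ j < 2 * k, CC R₀ B₀ (b j) (F j) (v j)) → Gr k w m V v) :
    ∀ v : ℕ → ℕ → ℂ → ℂ, (∀ j < 2 * k, TT R₀ B₀ (b j) (F j) (v j)) → Gr k w m V v := by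
  have key : ∀ n : ℕ, n ≤ 2 * k → ∀ v : ℕ → ℕ → ℂ → ℂ, (∀ j < n, TT R₀ B₀ (b j) (F j) (v j)) →
      (∀ j < 2 * k, n ≤ j → CC R₀ B₀ (b j) (F j) (v j)) → Gr k w m V v := by
    intro n
    induction n with
    | zero =>
      intro _ v _ hv
      exact h v fun j hj => hv j hj (Nat.zero_le j)
    | succ n ih =>
      intro hn v h1 h2
      have h3 : Gr k w m V (Function.update v n (v n)) := by
        refine step_tt (by omega) (fun u hu => ?_) (h1 n (by omega))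
        refine ih (by omega) _ (fun j hj => ?_) fun j hj hnj => ?_
        · rw [Function.update_of_ne (by omega)]
          exact h1 j (by omega)
        · by_cases hjn : j = n
          · rw [hjn, Function.update_self]
            exact hu
          · rw [Function.update_of_ne hjn]
            exact h2 j hj (by omega)
      rwa [Function.update_eq_self] at h3
  intro v hv
  exact key (2 * k) le_rfl v hv fun j hj hj2 => absurd hj (by omega)

end Pool.Agent.N518.UB
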