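import Pool.Agent.N518.UB.Circ
import Pool.Agent.N518.RC.Heavy

/-!
# The iterated functionals with circles: perturbations of the factors of the circles
-/

set_option autoImplicit false
set_option linter.all false

namespace Pool.Agent.N518.UB

open Finset Filter Topology Metric
open Pool.Agent.W711.HT hiding XX
open Pool.Agent.Y472
open Pool.Agent.N518.RC hiding circ_step circ_step' itG_bd circ_iter itG_perm mix
open Pool.Agent.TH563.UV (UN)
open Pool.Agent.TH219.J139 (Ub Ub_diff)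
open Pool.Agent.Y481 (itI itN itG itG_sep itI_eq LI_lin Sep cw LI LN)
open scoped Real

/-- the size of the functional of a vertex -/
lemma Lq_bd (a : ℤ) : ∃ D : ℝ, 0 < D ∧ ∀ᶠ N : ℕ in atTop, ∀ (b : Bool) (θ : ℂ) (F : ℂ → ℂ) (B : ℝ),
    ‖θ‖ ≤ 1 → 0 ≤ B →
    Continuous F → (∀ x y : ℝ, |x| ≤ π → |y| ≤ 1 / N → ‖F (x + y * Complex.I)‖ ≤ B) →
    ‖Lq b θ a N F‖ ≤ D * N * B := by
  obtain ⟨C, hC, hU⟩ := upb a
  refine ⟨8 * C, by positivity, ?_⟩
  filter_upwards [hU π Real.pi_pos le_rfl, eventually_ge_atTop 1] with N hN h1 b θ F B hθ hB hF hb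
  have hN1 : (1 : ℝ) ≤ N := by exact_mod_cast h1
  obtain ⟨k1, k2⟩ := hN (fun w => Uq b θ N w * F w) (4 * N * B)
    ((Uq_diff b θ N).continuous.mul hF)
  have hb' : ∀ x y : ℝ, |x| ≤ π → |y| ≤ 1 / N →
      ‖Uq b θ N (x + y * Complex.I) * F (x + y * Complex.I)‖ ≤ 4 * N * B := by
    intro x y hx hy
    rw [norm_mul]
    exact mul_le_mul (Uq_bd h1 b hθ hy) (hb x y hx hy) (norm_nonneg _) (by positivity)
  have k3 := k1 fun x y _ hx hy => hb' x y hx hy
  have k4 := k2 fun x y hx hy => hb' x y hx hy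
  have k5 := norm_add_le ((upp (1 / N) fun ψ => Ea a N ψ * (Uq b θ N ψ * F ψ) * kr N ψ) -
    ∫ x in (-π)..π, Ea a N (x + (1 / N : ℝ) * Complex.I) *
      (Uq b θ N (x + (1 / N : ℝ) * Complex.I) * F (x + (1 / N : ℝ) * Complex.I)) *
        kr N (x + (1 / N : ℝ) * Complex.I))
    (∫ x in (-π)..π, Ea a N (x + (1 / N : ℝ) * Complex.I) *
      (Uq b θ N (x + (1 / N : ℝ) * Complex.I) * F (x + (1 / N : ℝ) * Complex.I)) *
        kr N (x + (1 / N : ℝ) * Complex.I))
  rw [sub_add_cancel] at k5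
  unfold Lq LI
  refine k5.trans ?_
  linarith

/-- the size of the iterated functional -/
lemma itG_bd (a : ℕ → ℤ) (j : ℕ) : ∃ C : ℝ, 0 < C ∧ ∀ᶠ N : ℕ in atTop, ∀ (b : ℕ → Bool) (θ : ℕ → ℂ)
    (n : ℕ) (f : (ℕ → ℂ) → ℂ) (B : ℝ), (∀ i, ‖θ i‖ ≤ 1) → j ≤ n → 0 ≤ B → Sep n f → ∀ ψ : ℕ → ℂ,
    (∀ ψ' : ℕ → ℂ, (∀ i < j, |(ψ' i).re| ≤ π ∧ |(ψ' i).im| ≤ 1 / N) → (∀ i, j ≤ i → ψ' i = ψ i) →
      ‖f ψ'‖ ≤ B) →
    ‖itG (fun i => Lq (b i) (θ i) (a i) N) j f ψ‖ ≤ C * N ^ j * B := by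
  induction j with
  | zero =>
    refine ⟨1, one_pos, ?_⟩
    filter_upwards with N b θ n f B _ _ hB _ ψ h
    rw [pow_zero, mul_one, one_mul]
    exact h ψ (fun i hi => absurd hi (Nat.not_lt_zero i)) fun i _ => rfl
  | succ j ih =>
    obtain ⟨C, hC, ih⟩ := ih
    obtain ⟨D, hD, hU⟩ := Lq_bd (a j)
    refine ⟨D * C, by positivity, ?_⟩
    filter_upwards [ih, hU, eventually_ge_atTop 1] with N ih hU hN b θ n f B hθ hjn hB hf ψ h
    have hN1 : (1 : ℝ) ≤ N := by exact_mod_cast hN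
    have e : itG (fun i => Lq (b i) (θ i) (a i) N) (j + 1) f ψ =
      Lq (b j) (θ j) (a j) N fun w => itG (fun i => Lq (b i) (θ i) (a i) N) j f (Function.update ψ j w) := rfl
    have hS : Sep n (itG (fun i => Lq (b i) (θ i) (a i) N) j f) :=
      itG_sep (fun i => Lq_lin (b i) (θ i) (a i) hN) hf (by omega)
    rw [e]
    refine (hU (b j) (θ j) _ (C * N ^ j * B) (hθ j) (by positivity) (hS.diff ψ j).continuous ?_).trans
      (le_of_eq (by ring))
    intro x y hx hy
    refine ih b θ n f B hθ (by omega) hB hf _ fun ψ' h1 h2 => h ψ' ?_ ?_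
    · intro i hi
      by_cases hij : i = j
      · rw [h2 i hij.ge, hij, Function.update_self]
        have e1 : ((x : ℂ) + y * Complex.I).re = x := by simp
        have e2 : ((x : ℂ) + y * Complex.I).im = y := by simp
        rw [e1, e2]
        exact ⟨hx, hy⟩
      · exact h1 i (by omega)
    · intro i hi
      rw [h2 i (by omega), Function.update_of_ne (by omega)]

/-- asymptotics at a vertex with a circle -/
theorem circ_step' {L j : ℕ} (a : ℤ) {θ : ℕ → ℂ} {ε₁ : ℝ} (hε₁ : 0 < ε₁)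
    (hθ : ∀ N, ‖θ N‖ ≤ Real.exp (-(ε₁ * N))) {f : ℕ → (ℕ → ℂ) → ℂ} {S : (ℕ → ℂ) → ℂ} {r r' c B p : ℝ}
    (hr' : 0 < r') (hrr : r' ≤ r) (hr1 : r ≤ 1) (hc : 0 < c) (hp : 0 < p) (hB : 0 ≤ B)
    (hsep : ∀ N, 1 ≤ N → Sep L (f N)) (hlim : SeqLim L r f S)
    (hdif : ∀ ψ ∈ Bx L r, DifferentiableOn ℂ (fun w => S (Function.update ψ j w)) (Rc r r))
    (hconc : ∀ ψ ∈ Bx L r, (deriv (deriv fun w => S (Function.update ψ j w)) (ψ j)).re ≤ -c)
    (hev : ∀ ψ ∈ Bx L r, S (Function.update ψ j (-ψ j)) = S ψ)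
    (hbd : ∀ ψ ∈ Bx L r, ‖S ψ‖ ≤ B) (hpos : ∀ ψ ∈ Bx L r, p ≤ (S ψ).re)
    (hfar : ∀ (ψ : ℕ → ℕ → ℂ) (ψ₀ : ℕ → ℂ), ψ₀ ∈ Bx L r' →
      (∀ i < L, Tendsto (fun N => ψ N i) atTop (𝓝 (ψ₀ i))) →
      ∃ κ : ℝ, 0 < κ ∧ ∀ᶠ N : ℕ in atTop, ∀ x y : ℝ, r / 4 ≤ |x| → |x| ≤ π → |y| ≤ 1 / N →
        ‖f N (Function.update (ψ N) j (x + y * Complex.I))‖ ≤
          Real.exp (N * ((S (Function.update ψ₀ j 0)).re - κ))) :
    SeqLim L r' (fun N ψ => Lq true (θ N) a N fun w => f N (Function.update ψ j w))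
      (fun ψ => S (Function.update ψ j 0)) := by
  obtain ⟨g, hg⟩ : ∃ g : ℕ → (ℕ → ℂ) → ℂ, g = fun N => if N = 0 then fun _ => 0 else f N :=
    ⟨_, rfl⟩
  have hge : ∀ N : ℕ, 1 ≤ N → f N = g N := by
    intro N hN
    rw [hg]
    simp only
    rw [if_neg (by omega)]
  have h := circ_step (j := j) a hε₁ hθ (f := g) hr' hrr hr1 hc hp hB (fun N => by
    by_cases hN : N = 0
    · rw [hg]
      simp only [hN, if_true]
      exact Sep.const 0
    · rw [← hge N (by omega)]
      exact hsep N (by omega)) (seqlim_congr hlim hge) hdif hconc hev hbd hpos (by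
    intro ψ ψ₀ h0 h1
    obtain ⟨κ, hκ, h2⟩ := hfar ψ ψ₀ h0 h1
    refine ⟨κ, hκ, ?_⟩
    filter_upwards [h2, eventually_ge_atTop 1] with N h2 hN
    rw [← hge N hN]
    exact h2)
  refine seqlim_congr h fun N hN => ?_
  funext ψ
  rw [Lq_true, hge N hN]

theorem circ_iter (n e : ℕ) {T K : ℝ → ℝ} (hT : ∀ ρ, 0 < ρ → 0 < T ρ) (hK : ∀ ρ, 0 < ρ → 0 < K ρ)
    {r c B p Lp R : ℝ} (hr : 0 < r) (hr1 : r ≤ 1) (hrR : r ≤ R) (hc : 0 < c) (hB : 0 ≤ B)
    (hp : 0 < p) (hL : 0 ≤ Lp) (m : ℕ) (hm : e + m ≤ n) :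
    ∃ r' η₀ : ℝ, 0 < r' ∧ r' ≤ r ∧ 0 < η₀ ∧ ∀ (a : ℕ → ℤ) (b : ℕ → Bool) (θ : ℕ → ℕ → ℂ)
      (ε₁ : ℝ) (g : ℂ → ℝ) (f : ℕ → (ℕ → ℂ) → ℂ) (S : (ℕ → ℂ) → ℂ) (η : ℝ), 0 < ε₁ →
      (∀ i N, ‖θ i N‖ ≤ Real.exp (-(ε₁ * N))) → η ≤ η₀ → ContinuousOn g (Rc R R) →
      (∀ j, e ≤ j → j < n → b j = true) →
      CP n e r c B p Lp η g S → FB n T K R g f → (∀ N, Sep (n + 1) (f N)) →
      SeqLim (n + 1) r (fun N => itG (fun i => Lq (b i) (θ i N) (a i) N) e (f N)) S →
      SeqLim (n + 1) r' (fun N => itG (fun i => Lq (b i) (θ i N) (a i) N) (e + m) (f N))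
        (fun ψ => S (zr e (e + m) ψ)) := by
  induction m with
  | zero =>
    refine ⟨r, 1, hr, le_rfl, one_pos, ?_⟩
    intro a b θ ε₁ g f S η _ _ _ _ _ _ _ _ h
    have e1 : (fun ψ => S (zr e (e + 0) ψ)) = S := by
      funext ψ
      rw [Nat.add_zero, zr_self]
    rw [e1]
    exact h
  | succ m ih =>
    obtain ⟨r₁, η₁, hr₁, hr₁r, hη₁, ih⟩ := ih (by omega)
    obtain ⟨ρ, hρ⟩ : ∃ ρ : ℝ, ρ = r₁ / 4 := ⟨_, rfl⟩
    have hρ0 : 0 < ρ := by rw [hρ]; positivity
    have hT0 := hT ρ hρ0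
    have hK0 := hK ρ hρ0
    obtain ⟨κ, hκ⟩ : ∃ κ : ℝ, κ = K ρ := ⟨_, rfl⟩
    rw [← hκ] at hK0
    obtain ⟨q, hq⟩ : ∃ q : ℝ, q = κ / (16 * (Lp + 1) * (n + 1)) := ⟨_, rfl⟩
    have hq0 : 0 < q := by rw [hq]; positivity
    refine ⟨min r₁ (min (T ρ) q), min η₁ (κ / 8), by positivity, (min_le_left _ _).trans hr₁r,
      by positivity, ?_⟩
    obtain ⟨r₂, hr₂⟩ : ∃ r₂ : ℝ, r₂ = min r₁ (min (T ρ) q) := ⟨_, rfl⟩
    have hr₂0 : 0 < r₂ := by rw [hr₂]; positivity
    have hr₂1 : r₂ ≤ r₁ := by rw [hr₂]; exact min_le_left _ _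
    have hr₂T : r₂ ≤ T ρ := by rw [hr₂]; exact (min_le_right _ _).trans (min_le_left _ _)
    have hr₂q : r₂ ≤ q := by rw [hr₂]; exact (min_le_right _ _).trans (min_le_right _ _)
    rw [← hr₂]
    intro a b θ ε₁ g f S η hε₁ hθ hη hg hb hCP hFB hsep h
    have hη1 : η ≤ η₁ := hη.trans (min_le_left _ _)
    have hη2 : η ≤ κ / 8 := hη.trans (min_le_right _ _)
    have hθ1 : ∀ i N, ‖θ i N‖ ≤ 1 := fun i N => (hθ i N).trans (by
      rw [Real.exp_le_one_iff]
      have : (0 : ℝ) ≤ N := Nat.cast_nonneg N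
      have := mul_nonneg hε₁.le this
      linarith)
    have hlim := ih a b θ ε₁ g f S η hε₁ hθ hη1 hg hb hCP hFB hsep h
    obtain ⟨j, hj⟩ : ∃ j, j = e + m := ⟨_, rfl⟩
    rw [← hj] at hlim
    have hej : e ≤ j := by omega
    have hjn : j < n := by omega
    have hCP' := hCP.mono hr₁r
    have hmem : ∀ ψ ∈ Bx (n + 1) r₁, zr e j ψ ∈ Bx (n + 1) r₁ := fun ψ hψ => zr_mem hr₁ hψ
    have hzj : ∀ ψ : ℕ → ℂ, zr e j ψ j = ψ j := fun ψ => by
      unfold zr
      rw [if_neg (by omega)]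
    have hstep := circ_step' (L := n + 1) (j := j) (a j) (θ := θ j) hε₁ (hθ j)
      (f := fun N => itG (fun i => Lq (b i) (θ i N) (a i) N) j (f N)) (S := fun ψ => S (zr e j ψ))
      (r := r₁) (r' := r₂) (c := c) (B := B) (p := p) hr₂0 hr₂1 (hr₁r.trans hr1) hc hp hB
      (fun N hN => itG_sep (fun i => Lq_lin (b i) (θ i N) (a i) hN) (hsep N) (by omega)) hlim
      (fun ψ hψ => by
        simp only [zr_update]
        exact hCP'.dif _ (hmem ψ hψ) j hej hjn)
      (fun ψ hψ => by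
        simp only [zr_update]
        rw [← hzj ψ]
        exact hCP'.conc _ (hmem ψ hψ) j hej hjn)
      (fun ψ hψ => by
        show S (zr e j (Function.update ψ j (-ψ j))) = S (zr e j ψ)
        rw [zr_update]
        have := hCP'.ev _ (hmem ψ hψ) j hej hjn
        rw [hzj] at this
        exact this)
      (fun ψ hψ => hCP'.bd _ (hmem ψ hψ)) (fun ψ hψ => hCP'.pos _ (hmem ψ hψ)) (by
        intro ψ ψ₀ hψ₀ hψ
        refine ⟨κ / 4, by positivity, ?_⟩
        rw [← hρ]
        obtain ⟨C, hC, hbdN⟩ := itG_bd a j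
        -- the parameters are in the small box
        have hbox : ∀ᶠ N : ℕ in atTop, ∀ i ∈ range (n + 1), ψ N i ∈ Rc r₂ r₂ := by
          rw [Filter.eventually_all_finset]
          intro i hi
          rw [mem_range] at hi
          exact (hψ i hi).eventually ((Pool.Agent.W293.HT.isOpen_Rc _ _).mem_nhds (hψ₀ i hi))
        have hnR : ψ₀ n ∈ Rc R R := rcm (hr₂1.trans (hr₁r.trans hrR)) (hr₂1.trans (hr₁r.trans hrR))
          (hψ₀ n (by omega))
        have hgc : Tendsto (fun N => g (ψ N n)) atTop (𝓝 (g (ψ₀ n))) :=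
          ((hg _ hnR).continuousAt ((Pool.Agent.W293.HT.isOpen_Rc _ _).mem_nhds hnR)).tendsto.comp
            (hψ n (by omega))
        have hgc' : ∀ᶠ N : ℕ in atTop, g (ψ N n) ≤ g (ψ₀ n) + κ / 8 :=
          (hgc.eventually (gt_mem_nhds (by linarith : g (ψ₀ n) < g (ψ₀ n) + κ / 8))).mono
            fun N hN => hN.le
        have hlow : g (ψ₀ n) - κ / 4 ≤ (S (zr e j (Function.update ψ₀ j 0))).re := by
          have hm1 : zr e j (Function.update ψ₀ j 0) ∈ Bx (n + 1) r₁ := by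
            refine hmem _ ?_
            refine Bx_update hr₂1 hψ₀ ?_
            constructor <;> simpa using hr₁
          have h1 := hCP'.low _ hm1
          have hnn : zr e j (Function.update ψ₀ j 0) n = ψ₀ n := by
            unfold zr
            rw [if_neg (by omega), Function.update_of_ne (by omega)]
          rw [hnn] at h1
          have h2 : ∑ i ∈ Ico e n, ‖zr e j (Function.update ψ₀ j 0) i‖ ≤
              ∑ _i ∈ Ico e n, 2 * q := by
            refine sum_le_sum fun i hi => ?_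
            rw [mem_Ico] at hi
            unfold zr
            split_ifs
            · rw [norm_zero]; positivity
            · by_cases hij : i = j
              · rw [hij, Function.update_self, norm_zero]; positivity
              · rw [Function.update_of_ne hij]
                have h3 := hψ₀ i (by omega)
                have h4 := Complex.norm_le_abs_re_add_abs_im (ψ₀ i)
                linarith [h3.1, h3.2]
          rw [sum_const, Nat.card_Ico, nsmul_eq_mul] at h2
          have h3 : ((n - e : ℕ) : ℝ) * (2 * q) ≤ (n + 1) * (2 * q) := by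
            refine mul_le_mul_of_nonneg_right ?_ (by positivity)
            have : n - e ≤ n + 1 := by omega
            exact_mod_cast this
          have h4 : Lp * ∑ i ∈ Ico e n, ‖zr e j (Function.update ψ₀ j 0) i‖ ≤
              (Lp + 1) * ((n + 1) * (2 * q)) :=
            mul_le_mul (by linarith) (h2.trans h3) (sum_nonneg fun _ _ => norm_nonneg _)
              (by positivity)
          have h5 : (Lp + 1) * ((n + 1) * (2 * q)) = κ / 8 := by
            rw [hq]
            field_simp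
            norm_num
          linarith
        filter_upwards [hbdN, hFB ρ hρ0, hbox, hgc',
          pow_ev (show 0 < κ / 8 by positivity) C j,
          eventually_ge_atTop 1] with N h1 h2 h3 h4 h5 hN x y hx1 hx2 hy
        have hNp : (0 : ℝ) < N := by exact_mod_cast hN
        have k1 := h1 b (fun i => θ i N) (n + 1) (f N) (Real.exp (N * (g (ψ N n) - κ))) (fun i => hθ1 i N) (by omega)
          (Real.exp_pos _).le (hsep N) (Function.update (ψ N) j (x + y * Complex.I)) (by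
            intro ψ' q1 q2
            have e1 : ψ' n = ψ N n := by
              rw [q2 n (by omega), Function.update_of_ne (by omega)]
            have e2 : ψ' j = x + y * Complex.I := by
              rw [q2 j le_rfl, Function.update_self]
            have e3 : ((x : ℂ) + y * Complex.I).re = x := by simp
            have e4 : ((x : ℂ) + y * Complex.I).im = y := by simp
            have k2 := h2 ψ' (by
              intro i hi
              rcases lt_trichotomy i j with hij | hij | hij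
              · exact Or.inl (q1 i hij)
              · rw [hij, e2, e3, e4]
                exact Or.inl ⟨hx2, hy⟩
              · rw [q2 i hij.le, Function.update_of_ne (by omega)]
                exact Or.inr (rcm hr₂T hr₂T (h3 i (mem_range.2 (by omega))))) (by
              rw [e1]
              exact rcm (hr₂1.trans (hr₁r.trans hrR)) (hr₂1.trans (hr₁r.trans hrR))
                (h3 n (mem_range.2 (by omega)))) ⟨j, hjn, by rw [e2, e3]; exact hx1⟩
            rw [e1, ← hκ] at k2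
            exact k2)
        refine k1.trans ?_
        have k3 : C * (N : ℝ) ^ j ≤ Real.exp (N * (κ / 8)) := by
          refine h5.trans (le_of_eq ?_)
          rw [mul_comm]
        refine (mul_le_mul_of_nonneg_right k3 (Real.exp_pos _).le).trans ?_
        rw [← Real.exp_add, ← mul_add]
        refine Real.exp_le_exp.2 (mul_le_mul_of_nonneg_left ?_ hNp.le)
        linarith)
    have hbj : b j = true := hb j hej hjn
    have e3 : (fun N => itG (fun i => Lq (b i) (θ i N) (a i) N) (e + (m + 1)) (f N)) =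
        fun N ψ => Lq true (θ j N) (a j) N fun w =>
          itG (fun i => Lq (b i) (θ i N) (a i) N) j (f N) (Function.update ψ j w) := by
      funext N ψ
      rw [show e + (m + 1) = j + 1 by omega]
      show Lq (b j) (θ j N) (a j) N (fun w => itG (fun i => Lq (b i) (θ i N) (a i) N) j (f N)
        (Function.update ψ j w)) = _
      rw [hbj]
    have e4 : (fun ψ => S (zr e (e + (m + 1)) ψ)) =
        fun ψ => S (zr e j (Function.update ψ j 0)) := by
      funext ψ
      rw [zr_succ hej, show e + (m + 1) = j + 1 by omega]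
    rw [e3, e4]
    exact hstep

/-- the vertices without circle -/
lemma itG_heavy {e : ℕ} {b : ℕ → Bool} (hb : ∀ j < e, b j = false) (θ : ℕ → ℂ) (a : ℕ → ℤ) (N : ℕ)
    (f : (ℕ → ℂ) → ℂ) : itG (fun i => Lq (b i) (θ i) (a i) N) e f =
      itG (fun i => Lc (b i) (a i) N) e f := by
  refine itG_lam f e fun i hi => ?_
  rw [hb i hi, Lq_false, Lc_false]

/-- the order of the integrations is irrelevant -/
theorem itG_perm {σ : Equiv.Perm ℕ} {n : ℕ} (hσ : ∀ i, n ≤ i → σ i = i) {N : ℕ} (hN : 1 ≤ N)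
    (a : ℕ → ℤ) (b : ℕ → Bool) (θ : ℕ → ℂ) {f : (ℕ → ℂ) → ℂ} (hf : Sep n f) (ψ₁ ψ₂ : ℕ → ℂ) :
    itI a N n (fun ψ => (∏ j ∈ range n, Uq (b j) (θ j) N (ψ j)) * f ψ) ψ₁ =
      itG (fun i => Lq (b (σ i)) (θ (σ i)) (a (σ i)) N) n (fun φ => f (φ ∘ σ.symm)) ψ₂ := by
  obtain ⟨ι, I, c, A, hA, hf⟩ := hf
  rw [itI_eq, itG_val (Λ := fun j => LI (a j) N) (fun j => LI_lin (a j) hN) I c
      (fun i j w => Uq (b j) (θ j) N w * A i j w) (fun i j => (Uq_diff (b j) (θ j) N).mul (hA i j))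
      (n := n) (by
        intro ψ
        rw [hf, mul_sum]
        refine sum_congr rfl fun i _ => ?_
        rw [prod_mul_distrib]
        ring) n le_rfl,
    itG_val (Λ := fun i => Lq (b (σ i)) (θ (σ i)) (a (σ i)) N) (fun i => Lq_lin _ _ _ hN) I c
      (fun i j => A i (σ j)) (fun i j => hA i (σ j)) (n := n) (by
        intro φ
        rw [hf]
        refine sum_congr rfl fun i _ => ?_
        congr 1
        refine (prod_equiv σ (fun j => ?_) fun j _ => ?_).symm
        · rw [mem_range, mem_range]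
          constructor
          · exact perm_lt hσ
          · intro hj
            have := perm_lt (perm_symm hσ) hj
            rwa [Equiv.symm_apply_apply] at this
        · rw [Function.comp_apply, Equiv.symm_apply_apply]) n le_rfl]
  refine sum_congr rfl fun i _ => ?_
  rw [Ico_self, prod_empty, prod_empty, mul_one, mul_one]
  congr 1
  refine (prod_equiv σ (fun j => ?_) fun j _ => ?_).symm
  · rw [mem_range, mem_range]
    constructor
    · exact perm_lt hσ
    · intro hj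
      have := perm_lt (perm_symm hσ) hj
      rwa [Equiv.symm_apply_apply] at this
  · rfl

end Pool.Agent.N518.UB
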