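import Pool.Agent.N518.UB.Mainc

/-!
# The exact expression is multilinear in the functions of the vertices
-/

set_option autoImplicit false
set_option linter.all false

namespace Pool.Agent.N518.UB

open Finset Filter Topology Metric
open Pool.Agent.W711.HT hiding XX
open Pool.Agent.Y472 Pool.Agent.Y481.DR
open Pool.Agent.Y481 (cw wts LI LI_lin Sep)
open Pool.Agent.Y529.DR (TV_diff)
open Pool.Agent.W398.HT (Rp_diff)
open scoped Real

/-- the list of the vertices -/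
def lf (k : ℕ) (w : ℕ → ℤ) (v : ℕ → ℕ → ℂ → ℂ) : List (Vx × Vx) :=
  (List.range k).map fun i => ((w (2 * i), v (2 * i)), (w (2 * i + 1), v (2 * i + 1)))

lemma lf_len (k : ℕ) (w : ℕ → ℤ) (v : ℕ → ℕ → ℂ → ℂ) : (lf k w v).length = k := by
  simp [lf]

lemma flat_range {α : Type*} (g : ℕ → α) (k : ℕ) :
    ((List.range k).map fun i => [g (2 * i), g (2 * i + 1)]).flatten = (List.range (2 * k)).map g := by
  induction k with
  | zero => rfl
  | succ k ih =>
    rw [List.range_succ, List.map_append, List.flatten_append, ih,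
      show 2 * (k + 1) = (2 * k + 1) + 1 by ring, List.range_succ, List.range_succ, List.map_append,
      List.map_append]
    simp

lemma cw_lf (k : ℕ) (w : ℕ → ℤ) (v : ℕ → ℕ → ℂ → ℂ) {j : ℕ} (hj : j < 2 * k) :
    cw (wl (lf k w v)) j = w j := by
  unfold cw wts wl lf
  rw [List.map_map, List.map_map]
  have h := flat_range w k
  have e : ((List.range k).map (((fun p : ℤ × ℤ => [p.1, p.2]) ∘
      (fun p : Vx × Vx => (p.1.1, p.2.1))) ∘ fun i => ((w (2 * i), v (2 * i)),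
        (w (2 * i + 1), v (2 * i + 1))))) = (List.range k).map fun i => [w (2 * i), w (2 * i + 1)] :=
    rfl
  rw [e, h, List.getD_eq_getElem _ _ (by simpa using hj)]
  simp

lemma vy_lf (k : ℕ) (w : ℕ → ℤ) (v : ℕ → ℕ → ℂ → ℂ) {j : ℕ} (hj : j < 2 * k) :
    vy (lf k w v) j = v j := by
  unfold vy lf
  rw [List.map_map]
  have h := flat_range v k
  have e : ((List.range k).map ((fun p : Vx × Vx => [p.1.2, p.2.2]) ∘
      fun i => ((w (2 * i), v (2 * i)), (w (2 * i + 1), v (2 * i + 1))))) =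
      (List.range k).map fun i => [v (2 * i), v (2 * i + 1)] := rfl
  rw [e, h, List.getD_eq_getElem _ _ (by simpa using hj)]
  simp

lemma cV_lin {N : ℕ} (hN : 1 ≤ N) (a : ℤ) {v v₁ v₂ : ℕ → ℂ → ℂ} {c d : ℂ}
    (h1 : Differentiable ℂ (v₁ N)) (h2 : Differentiable ℂ (v₂ N))
    (hv : ∀ ψ, v N ψ = c * v₁ N ψ + d * v₂ N ψ) (i j : ℕ) :
    cV N (a, v) i j = c * cV N (a, v₁) i j + d * cV N (a, v₂) i j := by
  have e : ∀ u : ℕ → ℂ → ℂ, (upp (1 / N) fun ψ => Ea a N ψ * u N ψ * Rp N (N - 1 - j) ψ *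
      Rp N i ψ * kr N ψ) = LI a N (fun ψ => u N ψ * (Rp N (N - 1 - j) ψ * Rp N i ψ)) := by
    intro u
    unfold LI
    congr 1
    funext ψ
    ring
  have hR : Differentiable ℂ fun ψ => Rp N (N - 1 - j) ψ * Rp N i ψ :=
    (Rp_diff N _).mul (Rp_diff N _)
  have h := LI_lin a hN Bool Finset.univ (fun i => if i then c else d)
    (fun b ψ => (if b then v₁ N ψ else v₂ N ψ) * (Rp N (N - 1 - j) ψ * Rp N i ψ))
    (fun b => by
      cases b
      · exact h2.mul hR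
      · exact h1.mul hR)
  simp only [Fintype.sum_bool, if_true, Bool.false_eq_true, if_false] at h
  unfold cV
  simp only [e]
  have e2 : (fun ψ => v N ψ * (Rp N (N - 1 - j) ψ * Rp N i ψ)) =
      fun ψ => c * (v₁ N ψ * (Rp N (N - 1 - j) ψ * Rp N i ψ)) +
        d * (v₂ N ψ * (Rp N (N - 1 - j) ψ * Rp N i ψ)) := by
    funext ψ
    rw [hv]
    ring
  rw [e2, h]
  ring

lemma MAV_lin {N : ℕ} (hN : 1 ≤ N) (a : ℤ) {v v₁ v₂ : ℕ → ℂ → ℂ} {c d : ℂ}
    (h1 : Differentiable ℂ (v₁ N)) (h2 : Differentiable ℂ (v₂ N))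
    (hv : ∀ ψ, v N ψ = c * v₁ N ψ + d * v₂ N ψ) :
    MAV N (a, v) = c • MAV N (a, v₁) + d • MAV N (a, v₂) := by
  ext i j
  simp only [Matrix.add_apply, Matrix.smul_apply, smul_eq_mul]
  unfold MAV
  split_ifs
  · exact cV_lin hN a h1 h2 hv j i
  · simp

lemma MBV_lin {N : ℕ} (hN : 1 ≤ N) (χ : ℂ) (a : ℤ) {v v₁ v₂ : ℕ → ℂ → ℂ} {c d : ℂ}
    (h1 : Differentiable ℂ (v₁ N)) (h2 : Differentiable ℂ (v₂ N))
    (hv : ∀ ψ, v N ψ = c * v₁ N ψ + d * v₂ N ψ) :
    MBV N χ (a, v) = c • MBV N χ (a, v₁) + d • MBV N χ (a, v₂) := by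
  ext i j
  simp only [Matrix.add_apply, Matrix.smul_apply, smul_eq_mul]
  unfold MBV
  split_ifs
  · rw [cV_lin hN a h1 h2 hv i j]
    ring
  · simp

lemma MAV_congr' {N : ℕ} (a : ℤ) {v v' : ℕ → ℂ → ℂ} (h : v N = v' N) :
    MAV N (a, v) = MAV N (a, v') := by
  unfold MAV cV
  simp only [h] <;> rfl

lemma MBV_congr' {N : ℕ} (χ : ℂ) (a : ℤ) {v v' : ℕ → ℂ → ℂ} (h : v N = v' N) :
    MBV N χ (a, v) = MBV N χ (a, v') := by
  unfold MBV cV
  simp only [h] <;> rfl

/-- a product which is linear in one factor -/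
lemma prod_lin {n : Type*} [Fintype n] [DecidableEq n] {f f₁ f₂ : ℕ → Matrix n n ℂ} {c d : ℂ}
    {i₀ : ℕ} (k : ℕ) (hi : i₀ < k) (h : ∀ i, i ≠ i₀ → f i = f₁ i ∧ f i = f₂ i)
    (h0 : f i₀ = c • f₁ i₀ + d • f₂ i₀) :
    ((List.range k).map f).prod = c • ((List.range k).map f₁).prod +
      d • ((List.range k).map f₂).prod := by
  induction k with
  | zero => omega
  | succ k ih =>
    rw [List.range_succ, List.map_append, List.map_append, List.map_append, List.prod_append,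
      List.prod_append, List.prod_append]
    simp only [List.map_cons, List.map_nil, List.prod_cons, List.prod_nil, mul_one]
    by_cases hk : i₀ = k
    · subst hk
      have e1 : (List.range i₀).map f₁ = (List.range i₀).map f := by
        refine List.map_congr_left fun i hi' => ?_
        rw [List.mem_range] at hi'
        exact (h i (by omega)).1.symm
      have e2 : (List.range i₀).map f₂ = (List.range i₀).map f := by
        refine List.map_congr_left fun i hi' => ?_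
        rw [List.mem_range] at hi'
        exact (h i (by omega)).2.symm
      rw [e1, e2, h0, mul_add, Matrix.mul_smul, Matrix.mul_smul]
    · obtain ⟨a1, a2⟩ := h k (fun h => hk h.symm)
      rw [ih (by omega), ← a1, ← a2, add_mul, Matrix.smul_mul, Matrix.smul_mul]

section

variable {N k j₀ : ℕ} {w : ℕ → ℤ} {v v₁ v₂ : ℕ → ℕ → ℂ → ℂ} {c d : ℂ}

/-- the pair of factors -/
lemma pair_lin {P₁ P₂ P₃ : ℂ → Matrix (Fin N) (Fin N) ℂ} (hN : 1 ≤ N) (hj : j₀ < 2 * k)
    (h : ∀ j, j ≠ j₀ → v j N = v₁ j N ∧ v j N = v₂ j N)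
    (h1 : Differentiable ℂ (v₁ j₀ N)) (h2 : Differentiable ℂ (v₂ j₀ N))
    (hv : ∀ ψ, v j₀ N ψ = c * v₁ j₀ N ψ + d * v₂ j₀ N ψ) (χ : ℂ) :
    ((List.range k).map fun i => MAV N (w (2 * i), v (2 * i)) * P₁ χ *
      (P₂ χ * MBV N χ (w (2 * i + 1), v (2 * i + 1))) * P₃ χ).prod =
    c • ((List.range k).map fun i => MAV N (w (2 * i), v₁ (2 * i)) * P₁ χ *
      (P₂ χ * MBV N χ (w (2 * i + 1), v₁ (2 * i + 1))) * P₃ χ).prod +
    d • ((List.range k).map fun i => MAV N (w (2 * i), v₂ (2 * i)) * P₁ χ *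
      (P₂ χ * MBV N χ (w (2 * i + 1), v₂ (2 * i + 1))) * P₃ χ).prod := by
  refine prod_lin (i₀ := j₀ / 2) k (by omega) (fun i hi => ?_) ?_
  · have a1 := h (2 * i) (by omega)
    have a2 := h (2 * i + 1) (by omega)
    constructor
    · beta_reduce
      rw [MAV_congr' _ a1.1, MBV_congr' _ _ a2.1]
    · beta_reduce
      rw [MAV_congr' _ a1.2, MBV_congr' _ _ a2.2]
  · rcases Nat.even_or_odd j₀ with he | ho
    · have e : 2 * (j₀ / 2) = j₀ := Nat.two_mul_div_two_of_even he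
      have a2 := h (2 * (j₀ / 2) + 1) (by omega)
      beta_reduce
      rw [← MBV_congr' χ _ a2.1, ← MBV_congr' χ _ a2.2, e, MAV_lin hN (w j₀) h1 h2 hv]
      simp only [add_mul, Matrix.smul_mul]
    · have e : 2 * (j₀ / 2) + 1 = j₀ := Nat.two_mul_div_two_add_one_of_odd ho
      have a2 := h (2 * (j₀ / 2)) (by omega)
      beta_reduce
      rw [← MAV_congr' _ a2.1, ← MAV_congr' _ a2.2, e, MBV_lin hN χ (w j₀) h1 h2 hv]
      simp only [mul_add, add_mul, Matrix.smul_mul, Matrix.mul_smul]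

lemma TV_lin (hN : 1 ≤ N) (hj : j₀ < 2 * k)
    (h : ∀ j, j ≠ j₀ → v j N = v₁ j N ∧ v j N = v₂ j N)
    (h1 : Differentiable ℂ (v₁ j₀ N)) (h2 : Differentiable ℂ (v₂ j₀ N))
    (hv : ∀ ψ, v j₀ N ψ = c * v₁ j₀ N ψ + d * v₂ j₀ N ψ) (χ : ℂ) :
    TV N (lf k w v) χ = c * TV N (lf k w v₁) χ + d * TV N (lf k w v₂) χ := by
  have e : ∀ u : ℕ → ℕ → ℂ → ℂ, TV N (lf k w u) χ = (((List.range k).map fun i =>
      MAV N (w (2 * i), u (2 * i)) * (fun _ => 1) χ *
      ((fun _ => 1) χ * MBV N χ (w (2 * i + 1), u (2 * i + 1))) * (fun _ => 1) χ).prod).trace := by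
    intro u
    unfold TV lf
    rw [List.map_map]
    simp only [mul_one, one_mul]
    rfl
  rw [e, e, e, pair_lin (P₁ := fun _ => 1) (P₂ := fun _ => 1) (P₃ := fun _ => 1) hN hj h h1 h2 hv χ,
    Matrix.trace_add, Matrix.trace_smul, Matrix.trace_smul]
  rfl

lemma ThV_lin (hN : 1 ≤ N) (hj : j₀ < 2 * k)
    (h : ∀ j, j ≠ j₀ → v j N = v₁ j N ∧ v j N = v₂ j N)
    (h1 : Differentiable ℂ (v₁ j₀ N)) (h2 : Differentiable ℂ (v₂ j₀ N))
    (hv : ∀ ψ, v j₀ N ψ = c * v₁ j₀ N ψ + d * v₂ j₀ N ψ) (p : ℕ) :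
    ThV N (lf k w v) p = c * ThV N (lf k w v₁) p + d * ThV N (lf k w v₂) p := by
  have e : ∀ u : ℕ → ℕ → ℂ → ℂ, ThV N (lf k w u) p = (pH N p * ((List.range k).map fun i =>
      MAV N (w (2 * i), u (2 * i)) * (fun _ => pH N p) (2 * π * p / N : ℂ) *
      ((fun _ => 1) (2 * π * p / N : ℂ) * MBV N (2 * π * p / N) (w (2 * i + 1), u (2 * i + 1))) *
        (fun _ => pH N p) (2 * π * p / N : ℂ)).prod).trace := by
    intro u
    unfold ThV lf
    rw [List.map_map]
    simp only [one_mul]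
    rfl
  rw [e, e, e, pair_lin (P₁ := fun _ => pH N p) (P₂ := fun _ => 1) (P₃ := fun _ => pH N p) hN hj h
    h1 h2 hv _, mul_add, Matrix.mul_smul, Matrix.mul_smul,
    Matrix.trace_add, Matrix.trace_smul, Matrix.trace_smul]
  rfl

lemma wE_diff (N : ℕ) (m : ℤ) : Differentiable ℂ (wE N m) := by
  unfold wE Ea
  fun_prop

/-- the exact expression is linear in the function of a vertex -/
theorem ES_lin (hN : 1 ≤ N) (hj : j₀ < 2 * k)
    (h : ∀ j, j ≠ j₀ → v j N = v₁ j N ∧ v j N = v₂ j N)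
    (h1 : Differentiable ℂ (v₁ j₀ N)) (h2 : Differentiable ℂ (v₂ j₀ N))
    (hv : ∀ ψ, v j₀ N ψ = c * v₁ j₀ N ψ + d * v₂ j₀ N ψ) (m : ℤ) :
    ES N (lf k w v) m = c * ES N (lf k w v₁) m + d * ES N (lf k w v₂) m := by
  have e1 : ∀ p : ℕ, deriv (fun χ => wE N m χ * TV N (lf k w v) χ) (2 * π * p / N) =
      c * deriv (fun χ => wE N m χ * TV N (lf k w v₁) χ) (2 * π * p / N) +
      d * deriv (fun χ => wE N m χ * TV N (lf k w v₂) χ) (2 * π * p / N) := by
    intro p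
    have e : (fun χ => wE N m χ * TV N (lf k w v) χ) = fun χ =>
        c * (wE N m χ * TV N (lf k w v₁) χ) + d * (wE N m χ * TV N (lf k w v₂) χ) := by
      funext χ
      rw [TV_lin hN hj h h1 h2 hv]
      ring
    have d1 : Differentiable ℂ fun χ => wE N m χ * TV N (lf k w v₁) χ :=
      (wE_diff N m).mul (TV_diff N _)
    have d2 : Differentiable ℂ fun χ => wE N m χ * TV N (lf k w v₂) χ :=
      (wE_diff N m).mul (TV_diff N _)
    rw [e, deriv_fun_add ((d1 _).const_mul c) ((d2 _).const_mul d), deriv_const_mul c (d1 _),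
      deriv_const_mul d (d2 _)]
  unfold ES
  simp only [e1, ThV_lin hN hj h h1 h2 hv]
  rw [sum_add_distrib, ← mul_sum, ← mul_sum]
  have e3 : ∑ p ∈ range N, wE N m (2 * π * p / N) * (c * ThV N (lf k w v₁) p +
      d * ThV N (lf k w v₂) p) = c * ∑ p ∈ range N, wE N m (2 * π * p / N) * ThV N (lf k w v₁) p +
      d * ∑ p ∈ range N, wE N m (2 * π * p / N) * ThV N (lf k w v₂) p := by
    rw [mul_sum, mul_sum, ← sum_add_distrib]
    refine sum_congr rfl fun p _ => ?_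
    ring
  rw [e3]
  ring

end

end Pool.Agent.N518.UB
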