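import Pool.Agent.N518.UB.Find
import Pool.Agent.N518.RC.Rg

/-!
# Rings of tangles: upper bounds for the growth of the Kashaev invariants

The definitions not given here are in `Pool.Agent.Results.MP_bdeb5b_gt.PolyhedralLinks` (`IsAngle` is
in `Pool.Agent.N518.RC.Rg`).
-/

set_option autoImplicit false

namespace Pool.Agent.N518.UB.Rg

open Finset Filter Topology
open Pool.Agent.Results.MP_bdeb5b_gt.PolyhedralLinks hiding IsAngle
open Pool.Agent.N518.RC.Rg (IsAngle)

/-- The volume `8 Λ(π / 4)` of the regular ideal octahedron (`3.6638…`). -/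
noncomputable def octahedron : ℝ := 8 * Lob (Real.pi / 4)

/-- The number of edges of a tree. -/
def treeEdges : Tree → ℕ
  | .single _ _ => 0
  | .join t c => treeEdges t + treeEdges c + 1

/-- The number of edges of all trees of a ring. -/
def edges (ts : List (Tree × Tree)) : ℕ := (ts.map fun p => treeEdges p.1 + treeEdges p.2).sum

/-- The tree `s` is obtained from the tree `t` by adding crossing circles at some of the vertices (or
at none); the weights are the same. -/
def AddCircles : Tree → Tree → Prop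
  | .single b a, .single b' a' => a = a' ∧ (b = true → b' = true)
  | .join t c, .join t' c' => AddCircles t t' ∧ AddCircles c c'
  | .single _ _, .join _ _ => False
  | .join _ _, .single _ _ => False

/-- The ring `ss` is obtained from the ring `ts` by adding crossing circles. -/
def AddRing (ts ss : List (Tree × Tree)) : Prop :=
  List.Forall₂ (fun p q => AddCircles p.1 q.1 ∧ AddCircles p.2 q.2) ts ss

/-- Crossing circles are added at all vertices. -/
def fullTree : Tree → Tree
  | .single _ a => .single true a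
  | .join t c => .join (fullTree t) (fullTree c)

/-- Crossing circles are added at all vertices of all trees: the fully augmented link. -/
def full (ts : List (Tree × Tree)) : List (Tree × Tree) :=
  ts.map fun p => (fullTree p.1, fullTree p.2)

/-- Every vertex has a crossing circle or a weight of absolute value at least `M`. -/
def Heavy (M : ℕ) : Tree → Prop
  | .single b a => b = true ∨ (M : ℤ) ≤ |a|
  | .join t c => Heavy M t ∧ Heavy M c

/-- The root has at most `D` children, and it has a crossing circle or a weight of absolute value at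
least `M`; every other vertex is large: it has a crossing circle, or `n` neighbours and the weight
`a` with `K² ≤ n² + a²`. -/
def Large (K D M : ℕ) (t : Tree) : Prop :=
  t.children ≤ D ∧ (t.circle = true ∨ (M : ℤ) ≤ |t.weight|) ∧ t.LargeBelow K

/-- `V` is the maximum of the volumes of the angle structures. -/
def IsMaxVolume (m : ℤ) (ts : List (Tree × Tree)) (V : ℝ) : Prop :=
  IsGreatest {W : ℝ | ∃ (y : ℕ → AngleTree) (f g F G : ℕ → Angles),
    IsAngle m ts y f g F G ∧ vol ts y f g F G = W} V

/-! ### Bridges -/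

open Pool.Agent.TH563.UV (Tb AB)
open Pool.Agent.TH563.UB (Sb Hv v8)
open Pool.Agent.Y481.DR (tj rv JD sum_rv)
open Pool.Agent.N518.UB

lemma oct_eq : octahedron = v8 := rfl

lemma add_to : ∀ t s : Tree, AddCircles t s → Sb (toTb t) (toTb s)
  | .single _ _, .single _ _, h => h
  | .join t c, .join t' c', h => ⟨add_to t t' h.1, add_to c c' h.2⟩
  | .single _ _, .join _ _, h => h
  | .join _ _, .single _ _, h => h

lemma tj_zero (p : Tb × Tb) (l : List (Tb × Tb)) : tj (p :: l) 0 = p.1 := rfl
lemma tj_one (p : Tb × Tb) (l : List (Tb × Tb)) : tj (p :: l) 1 = p.2 := rfl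
lemma tj_two (p : Tb × Tb) (l : List (Tb × Tb)) (j : ℕ) : tj (p :: l) (j + 2) = tj l j := rfl

lemma ring_add {ts ss : List (Tree × Tree)} (h : AddRing ts ss) :
    ∀ j < 2 * ss.length, Sb (tj (toTs ts) j) (tj (toTs ss) j) := by
  induction h with
  | nil =>
    intro j hj
    simp at hj
  | cons hpq _ ih =>
    rename_i p q ts ss _
    intro j hj
    show Sb (tj ((toTb p.1, toTb p.2) :: toTs ts) j) (tj ((toTb q.1, toTb q.2) :: toTs ss) j)
    rcases j with _ | _ | j
    · exact add_to _ _ hpq.1
    · exact add_to _ _ hpq.2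
    · rw [tj_two, tj_two]
      refine ih j ?_
      rw [List.length_cons] at hj
      omega

lemma ne_to (t : Tree) : (toTb t).ne = treeEdges t := by
  induction t with
  | single b a => rfl
  | join t c ht hc =>
    show (toTb t).ne + (toTb c).ne + 1 = treeEdges t + treeEdges c + 1
    rw [ht, hc]

lemma edges_eq (ts : List (Tree × Tree)) :
    ∑ j ∈ range (2 * ts.length), ((tj (toTs ts) j).ne : ℝ) = edges ts := by
  induction ts with
  | nil => simp [edges]
  | cons p ts ih =>
    have h0 : toTs (p :: ts) = (toTb p.1, toTb p.2) :: toTs ts := rfl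
    rw [List.length_cons, show 2 * (ts.length + 1) = 2 * ts.length + 1 + 1 by ring,
      sum_range_succ', sum_range_succ']
    have h1 : ∑ j ∈ range (2 * ts.length), ((tj (toTs (p :: ts)) (j + 1 + 1)).ne : ℝ) = edges ts := by
      rw [← ih]
      rfl
    rw [h1, h0]
    show (edges ts : ℝ) + ((toTb p.2).ne : ℝ) + ((toTb p.1).ne : ℝ) = ((edges (p :: ts) : ℕ) : ℝ)
    rw [ne_to, ne_to]
    unfold edges
    rw [List.map_cons, List.sum_cons]
    push_cast
    ring

lemma tree_prop {P : Tb → Prop} (ts : List (Tree × Tree))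
    (h : ∀ p ∈ ts, P (toTb p.1) ∧ P (toTb p.2)) : ∀ j < 2 * ts.length, P (tj (toTs ts) j) := by
  intro j hj
  refine Pool.Agent.Y481.DR.tj_get (toTs ts) P (fun q hq => ?_) (by simpa [toTs] using hj)
  obtain ⟨p, hp, rfl⟩ := List.mem_map.1 hq
  exact h p hp

lemma heavy_to {M : ℕ} (t : Tree) (h : Heavy M t) : Hv M (toTb t) := by
  induction t with
  | single b a => exact h
  | join t c ht hc => exact ⟨ht h.1, hc h.2⟩

lemma full_to (t : Tree) : AllC (toTb (fullTree t)) := by
  induction t with
  | single b a => rfl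
  | join t c ht hc => exact ⟨ht, hc⟩

lemma full_add (t : Tree) : AddCircles t (fullTree t) := by
  induction t with
  | single b a => exact ⟨rfl, fun _ => rfl⟩
  | join t c ht hc => exact ⟨ht, hc⟩

lemma full_ring (ts : List (Tree × Tree)) : AddRing ts (full ts) := by
  induction ts with
  | nil => exact List.Forall₂.nil
  | cons p ts ih => exact List.Forall₂.cons ⟨full_add p.1, full_add p.2⟩ ih

lemma self_add (t : Tree) : AddCircles t t := by
  induction t with
  | single b a => exact ⟨rfl, fun h => h⟩
  | join t c ht hc => exact ⟨ht, hc⟩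

lemma full_edges (t : Tree) : treeEdges (fullTree t) = treeEdges t := by
  induction t with
  | single b a => rfl
  | join t c ht hc =>
    show treeEdges (fullTree t) + treeEdges (fullTree c) + 1 = treeEdges t + treeEdges c + 1
    rw [ht, hc]

lemma full_edgesR (ts : List (Tree × Tree)) : edges (full ts) = edges ts := by
  unfold edges full
  rw [List.map_map]
  congr 1
  refine List.map_congr_left fun p _ => ?_
  simp only [Function.comp_apply, full_edges]

lemma full_children (t : Tree) : (fullTree t).children = t.children := by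
  induction t with
  | single b a => rfl
  | join t c ht hc =>
    show (fullTree t).children + 1 = t.children + 1
    rw [ht]

lemma full_circle (t : Tree) : (fullTree t).circle = true := by
  induction t with
  | single b a => rfl
  | join t c ht hc => exact ht

lemma full_below (K : ℕ) (t : Tree) : (fullTree t).LargeBelow K := by
  induction t with
  | single b a => trivial
  | join t c ht hc => exact ⟨ht, hc, Or.inl (full_circle c)⟩

/-- all roots have at most `D` children for some `D` -/
lemma exists_D (ts : List (Tree × Tree)) : ∃ D : ℕ, ∀ p ∈ ts, p.1.children ≤ D ∧ p.2.children ≤ D := by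
  induction ts with
  | nil => exact ⟨0, fun p hp => absurd hp (by simp)⟩
  | cons q ts ih =>
    obtain ⟨D, hD⟩ := ih
    refine ⟨D + q.1.children + q.2.children, fun p hp => ?_⟩
    rcases List.mem_cons.1 hp with rfl | hp
    · omega
    · have := hD p hp
      omega

lemma heavy_root {M : ℕ} (t : Tree) (h : Heavy M t) : t.circle = true ∨ (M : ℤ) ≤ |t.weight| := by
  induction t with
  | single b a => exact h
  | join t c ht hc => exact ht h.1

lemma heavy_below {M K : ℕ} (hKM : K ≤ M) (t : Tree) (h : Heavy M t) : t.LargeBelow K := by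
  induction t with
  | single b a => trivial
  | join t c ht hc =>
    refine ⟨ht h.1, hc h.2, ?_⟩
    rcases heavy_root c h.2 with h1 | h1
    · exact Or.inl h1
    · refine Or.inr ?_
      have h0 : (K : ℤ) ≤ |c.weight| := le_trans (by exact_mod_cast hKM) h1
      have h2 : (K : ℤ) ^ 2 ≤ |c.weight| ^ 2 := pow_le_pow_left₀ (by positivity) h0 2
      rw [sq_abs] at h2
      have : (0 : ℤ) ≤ ((c.children + 1 : ℕ) : ℤ) ^ 2 := by positivity
      linarith

lemma heavy_mono {M M' : ℕ} (h : M ≤ M') (t : Tree) (ht : Heavy M' t) : Heavy M t := by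
  induction t with
  | single b a =>
    rcases ht with ht | ht
    · exact Or.inl ht
    · exact Or.inr (le_trans (by exact_mod_cast h) ht)
  | join t c iht ihc => exact ⟨iht ht.1, ihc ht.2⟩

lemma large_fine {K : ℕ} (t : Tree) : ∀ g : Prop, t.LargeBelow K →
    Pool.Agent.N566.PS.Rg.FineBelow K g t := by
  induction t with
  | single b a => exact fun _ _ => trivial
  | join t c ht hc => exact fun g h => ⟨ht g h.1, hc _ h.2.1, Or.inl h.2.2⟩

lemma norm_k (e f m' : ℤ) (ts' : List (Tree × Tree)) (N : ℕ) : ‖kashaev e f m' ts' N‖ =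
    ‖JD (toTs ts') m' N (Pool.Agent.W711.HT.vN N)‖ := by
  have hr : ‖root N‖ = 1 := by
    have : root N = Complex.exp ((Real.pi / N : ℝ) * Complex.I) := by
      unfold root
      congr 1
      push_cast
      ring
    rw [this, Complex.norm_exp_ofReal_mul_I]
  unfold kashaev
  rw [norm_mul, norm_mul, norm_zpow, norm_zpow, norm_neg, norm_one, _root_.one_zpow, hr,
    _root_.one_zpow, one_mul, one_mul, jones_to]
  rfl

/-- the bound, for the larger rings -/
theorem mainub : ∃ K : ℕ, ∀ k m : ℕ, 1 ≤ k → ¬ (k = 1 ∧ m = 0) → ∃ V₀ : ℝ,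
    ∀ (D : ℕ) (ε₀ : ℝ), 0 < ε₀ → ∃ M : ℕ, ∀ ss : List (Tree × Tree), ss.length = k →
    (∀ p ∈ ss, Large K D M p.1 ∧ Large K D M p.2) →
    ∃ V : ℝ, IsMaxVolume m ss V ∧ V ≤ 2 * octahedron * (2 * k + edges ss) ∧
      ((∀ p ∈ ss, Heavy M p.1 ∧ Heavy M p.2) →
        V₀ - ε₀ + (2 * octahedron - ε₀) * edges ss ≤ V) ∧
      ((∀ p ∈ ss, AllC (toTb p.1) ∧ AllC (toTb p.2)) → V = V₀ + 2 * octahedron * edges ss) ∧
      ∀ ts : List (Tree × Tree), AddRing ts ss → ∀ (e f : ℤ) (ε : ℝ), 0 < ε →
        ∀ᶠ N : ℕ in atTop,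
          ‖kashaev e f m ts N‖ ≤ Real.exp ((V / (2 * Real.pi) + ε) * N) ∧
          ‖kashaev e f (-m) (mirror ts) N‖ ≤ Real.exp ((V / (2 * Real.pi) + ε) * N) := by
  obtain ⟨K, hK, hM⟩ := find_ubq
  refine ⟨⌈K⌉₊, fun k m hk hkm => ?_⟩
  obtain ⟨V₀, hM⟩ := hM k (m : ℤ) hk (by positivity) (by
    rintro ⟨h1, h2⟩
    exact hkm ⟨h1, by exact_mod_cast h2⟩)
  refine ⟨V₀, fun D ε₀ hε₀ => ?_⟩
  obtain ⟨M, hM⟩ := hM D ε₀ hε₀
  refine ⟨M, fun ss hlen hss => ?_⟩
  have hc : ∀ (c : Bool) (x : ℤ), (c = true ∨ (M : ℤ) ≤ |x|) → c = false → (M : ℝ) ≤ |(x : ℝ)| := by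
    intro c x hx hcf
    rcases hx with hx | hx
    · rw [hcf] at hx
      exact absurd hx (by simp)
    · have h1 : ((M : ℤ) : ℝ) ≤ ((|x| : ℤ) : ℝ) := by exact_mod_cast hx
      rw [Int.cast_abs] at h1
      exact_mod_cast h1
  have hlen' : (toTs ss).length = ss.length := by simp [toTs]
  have hKc : K ≤ (⌈K⌉₊ : ℝ) := Nat.le_ceil K
  obtain ⟨V, h1, h2, h3, h4⟩ := hM (toTs ss) (by rw [hlen', hlen]) (by
    intro q hq
    obtain ⟨p, hp, rfl⟩ := List.mem_map.1 hq
    obtain ⟨⟨a2, a3, a4⟩, ⟨b2, b3, b4⟩⟩ := hss p hp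
    unfold Okl
    simp only [nc_to, wt_to, bl_to]
    exact ⟨below_tb hK hKc _ a4, below_tb hK hKc _ b4, a2, b2, hc _ _ a3, hc _ _ b3⟩)
  have hV : IsMaxVolume m ss V := by
    unfold IsMaxVolume
    rw [Pool.Agent.N518.RC.Rg.volume_eq, hlen]
    exact h1 _ (Or.inr rfl)
  have hedge : ∑ j ∈ range (2 * k), ((tj (toTs ss) j).ne : ℝ) = edges ss := by
    rw [← hlen]
    exact edges_eq ss
  refine ⟨V, hV, ?_, fun hh => ?_, fun hh => ?_, fun ts hts e f ε hε => ?_⟩
  · obtain ⟨y, f, g, F, G, g1, g2, g3⟩ := (h1 _ (Or.inl rfl)).1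
    rw [← g3, oct_eq]
    refine (dvol_le g2).trans (le_of_eq ?_)
    have e1 : ∑ j ∈ range (2 * k), (((y j).shape.ne : ℕ) : ℝ) = edges ss := by
      rw [← hedge]
      exact sum_congr rfl fun j hj => by rw [g1 j (mem_range.1 hj)]
    rw [e1]
    push_cast
    ring
  · rw [← hedge]
    exact h2 (by
      rw [← hlen]
      exact tree_prop ss fun p hp => ⟨heavy_to _ (hh p hp).1, heavy_to _ (hh p hp).2⟩)
  · rw [← hedge]
    exact h3 (by
      rw [← hlen]
      exact tree_prop ss fun p hp => hh p hp)
  · have hlt : ts.length = ss.length := hts.length_eq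
    have hlent' : (toTs ts).length = ts.length := by simp [toTs]
    have hne' : toTs ts ≠ [] := by
      intro h0
      rw [h0] at hlent'
      simp only [List.length_nil] at hlent'
      omega
    have h5 := h4 (toTs ts) (by rw [hlent', hlt, hlen]) (by
      rw [← hlen]
      exact ring_add hts) ε hε
    filter_upwards [h5, eventually_ge_atTop 2] with N h6 hN
    have h7 : ‖JD (toTs ts) m N (Pool.Agent.W711.HT.vN N)‖ ≤
        Real.exp ((V / (2 * Real.pi) + ε) * N) := by
      rw [mul_comm]
      exact h6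
    constructor
    · rw [norm_k]
      exact h7
    · rw [norm_k, mirror_ts, Pool.Agent.N518.RC.mirc (toTs ts) m N hN hne']
      exact h7

end Pool.Agent.N518.UB.Rg
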