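import Pool.Agent.N518.UB.Rg

/-!
# Rings of tangles: universal upper bounds, and their optimality
-/

set_option autoImplicit false

namespace Pool.Agent.N518.UB.Rg

open Finset Filter Topology
open Pool.Agent.Results.MP_bdeb5b_gt.PolyhedralLinks hiding IsAngle
open Pool.Agent.N518.RC.Rg (IsAngle)
open Pool.Agent.N518.UB

lemma tree_mm (t : Tree) : t.mirror.mirror = t := by
  induction t with
  | single b a =>
    show Tree.single b (- -a) = Tree.single b a
    rw [neg_neg]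
  | join t c ht hc =>
    show Tree.join t.mirror.mirror c.mirror.mirror = Tree.join t c
    rw [ht, hc]

lemma mm (ts : List (Tree × Tree)) : mirror (mirror ts) = ts := by
  unfold mirror
  rw [List.map_map]
  conv_rhs => rw [← List.map_id ts]
  refine List.map_congr_left fun p _ => ?_
  simp only [Function.comp_apply, tree_mm, id_eq, Prod.mk.eta]

lemma tree_me (t : Tree) : treeEdges t.mirror = treeEdges t := by
  induction t with
  | single b a => rfl
  | join t c ht hc =>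
    show treeEdges t.mirror + treeEdges c.mirror + 1 = treeEdges t + treeEdges c + 1
    rw [ht, hc]

lemma me (ts : List (Tree × Tree)) : edges (mirror ts) = edges ts := by
  unfold edges mirror
  rw [List.map_map]
  congr 1
  refine List.map_congr_left fun p _ => ?_
  simp only [Function.comp_apply, tree_me]

lemma full_length (ts : List (Tree × Tree)) : (full ts).length = ts.length := by
  unfold full
  rw [List.length_map]

lemma mirror_length (ts : List (Tree × Tree)) : (mirror ts).length = ts.length := by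
  unfold mirror
  rw [List.length_map]

lemma edges_zero : ∀ k : ℕ,
    edges (List.replicate k (Tree.single true 0, Tree.single true 0)) = 0 := by
  intro k
  induction k with
  | zero => rfl
  | succ k ih =>
    rw [List.replicate_succ]
    unfold edges at ih ⊢
    rw [List.map_cons, List.sum_cons, ih]
    rfl

/-- `limsup 2 π log |⟨L⟩_N| / N ≤ V`, with `log 0 = -∞`. -/
def GrowthLe (V : ℝ) (m : ℤ) (ts : List (Tree × Tree)) : Prop :=
  ∀ (e f : ℤ) (ε : ℝ), 0 < ε → ∀ᶠ N : ℕ in atTop,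
    ‖kashaev e f m ts N‖ ≤ Real.exp ((V / (2 * Real.pi) + ε) * N)

lemma exists_V : ∃ V : ℕ → ℕ → ℝ, ∃ K : ℕ, ∀ k m : ℕ, 1 ≤ k → ¬ (k = 1 ∧ m = 0) →
    ∀ (D : ℕ) (ε₀ : ℝ), 0 < ε₀ → ∃ M : ℕ, ∀ ss : List (Tree × Tree), ss.length = k →
    (∀ p ∈ ss, Large K D M p.1 ∧ Large K D M p.2) →
    ∃ W : ℝ, IsMaxVolume m ss W ∧ W ≤ 2 * octahedron * (2 * k + edges ss) ∧
      ((∀ p ∈ ss, Heavy M p.1 ∧ Heavy M p.2) →
        V k m - ε₀ + (2 * octahedron - ε₀) * edges ss ≤ W) ∧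
      ((∀ p ∈ ss, AllC (toTb p.1) ∧ AllC (toTb p.2)) → W = V k m + 2 * octahedron * edges ss) ∧
      ∀ ts : List (Tree × Tree), AddRing ts ss → GrowthLe W m ts ∧ GrowthLe W (-m) (mirror ts) := by
  obtain ⟨K, h⟩ := mainub
  have h2 : ∀ k m : ℕ, ∃ V₀ : ℝ, 1 ≤ k → ¬ (k = 1 ∧ m = 0) →
      ∀ (D : ℕ) (ε₀ : ℝ), 0 < ε₀ → ∃ M : ℕ, ∀ ss : List (Tree × Tree), ss.length = k →
      (∀ p ∈ ss, Large K D M p.1 ∧ Large K D M p.2) →
      ∃ W : ℝ, IsMaxVolume m ss W ∧ W ≤ 2 * octahedron * (2 * k + edges ss) ∧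
        ((∀ p ∈ ss, Heavy M p.1 ∧ Heavy M p.2) →
          V₀ - ε₀ + (2 * octahedron - ε₀) * edges ss ≤ W) ∧
        ((∀ p ∈ ss, AllC (toTb p.1) ∧ AllC (toTb p.2)) → W = V₀ + 2 * octahedron * edges ss) ∧
        ∀ ts : List (Tree × Tree), AddRing ts ss → GrowthLe W m ts ∧ GrowthLe W (-m) (mirror ts) := by
    intro k m
    by_cases hk : 1 ≤ k
    · by_cases hkm : ¬ (k = 1 ∧ m = 0)
      · obtain ⟨V₀, h3⟩ := h k m hk hkm
        refine ⟨V₀, fun _ _ D ε₀ hε => ?_⟩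
        obtain ⟨M, hM⟩ := h3 D ε₀ hε
        refine ⟨M, fun ss hss hL => ?_⟩
        obtain ⟨W, w1, w2, w3, w4, w5⟩ := hM ss hss hL
        refine ⟨W, w1, w2, w3, w4, fun ts hts => ⟨fun e f ε hε => ?_, fun e f ε hε => ?_⟩⟩
        · exact (w5 ts hts e f ε hε).mono fun N hN => hN.1
        · exact (w5 ts hts e f ε hε).mono fun N hN => hN.2
      · exact ⟨0, fun _ h' => absurd h' hkm⟩
    · exact ⟨0, fun h' => absurd h' hk⟩
  choose V hV using h2
  exact ⟨V, K, hV⟩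

lemma large_full (K M : ℕ) (ts : List (Tree × Tree)) : ∃ D : ℕ,
    ∀ p ∈ full ts, Large K D M p.1 ∧ Large K D M p.2 := by
  obtain ⟨D, hD⟩ := exists_D ts
  refine ⟨D, fun p hp => ?_⟩
  obtain ⟨q, hq, rfl⟩ := List.mem_map.1 hp
  obtain ⟨h1, h2⟩ := hD q hq
  exact ⟨⟨by rw [full_children]; exact h1, Or.inl (full_circle _), full_below K _⟩,
    ⟨by rw [full_children]; exact h2, Or.inl (full_circle _), full_below K _⟩⟩

lemma large_fullD {D : ℕ} (K M : ℕ) {ts : List (Tree × Tree)}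
    (hD : ∀ p ∈ ts, p.1.children ≤ D ∧ p.2.children ≤ D) :
    ∀ p ∈ full ts, Large K D M p.1 ∧ Large K D M p.2 := by
  intro p hp
  obtain ⟨q, hq, rfl⟩ := List.mem_map.1 hp
  obtain ⟨h1, h2⟩ := hD q hq
  exact ⟨⟨by rw [full_children]; exact h1, Or.inl (full_circle _), full_below K _⟩,
    ⟨by rw [full_children]; exact h2, Or.inl (full_circle _), full_below K _⟩⟩

lemma allC_full (ts : List (Tree × Tree)) :
    ∀ p ∈ full ts, AllC (toTb p.1) ∧ AllC (toTb p.2) := by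
  intro p hp
  obtain ⟨q, hq, rfl⟩ := List.mem_map.1 hp
  exact ⟨full_to _, full_to _⟩

/-- a bound for the growth rate bounds the limit -/
lemma le_of_bd {V W : ℝ} {m : ℤ} {ts : List (Tree × Tree)} (hb : GrowthLe V m ts)
    (h0 : ∀ᶠ N : ℕ in atTop, kashaev 0 0 m ts N ≠ 0)
    (hl : Tendsto (fun N : ℕ => 2 * Real.pi * (Real.log ‖kashaev 0 0 m ts N‖ / N)) atTop (𝓝 W)) :
    W ≤ V := by
  have hpi := Real.pi_pos
  refine le_of_forall_pos_le_add fun ε hε => ?_
  refine le_of_tendsto hl ?_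
  filter_upwards [hb 0 0 (ε / (2 * Real.pi)) (by positivity), h0, eventually_ge_atTop 1]
    with N h1 h2 h3
  have hN : (0 : ℝ) < N := by exact_mod_cast h3
  have h4 : Real.log ‖kashaev 0 0 m ts N‖ ≤ (V / (2 * Real.pi) + ε / (2 * Real.pi)) * N := by
    have := Real.log_le_log (norm_pos_iff.2 h2) h1
    rwa [Real.log_exp] at this
  have h5 : Real.log ‖kashaev 0 0 m ts N‖ / N ≤ V / (2 * Real.pi) + ε / (2 * Real.pi) := by
    rw [div_le_iff₀ hN]
    exact h4
  calc 2 * Real.pi * (Real.log ‖kashaev 0 0 m ts N‖ / N)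
      ≤ 2 * Real.pi * (V / (2 * Real.pi) + ε / (2 * Real.pi)) := by gcongr
    _ = V + ε := by field_simp

theorem uni' : ∃ (K : ℕ) (V : ℕ → ℕ → ℝ), ∀ k m : ℕ, 1 ≤ k → ¬ (k = 1 ∧ m = 0) →
    V k m ≤ 4 * k * octahedron ∧
    (∀ ts : List (Tree × Tree), ts.length = k →
      IsMaxVolume m (full ts) (V k m + 2 * octahedron * edges ts) ∧
      GrowthLe (V k m + 2 * octahedron * edges ts) m ts ∧
      GrowthLe (V k m + 2 * octahedron * edges ts) (-m) ts) ∧
    (∀ D : ℕ, ∃ M : ℕ, ∀ ts ss : List (Tree × Tree), ss.length = k → AddRing ts ss →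
      (∀ p ∈ ss, Large K D M p.1 ∧ Large K D M p.2) →
      ∃ W : ℝ, IsMaxVolume m ss W ∧ W ≤ 2 * octahedron * (2 * k + edges ss) ∧
        GrowthLe W m ts ∧ GrowthLe W (-m) (mirror ts)) ∧
    ∀ (D : ℕ) (ε : ℝ), 0 < ε → ∃ M : ℕ, ∀ ts : List (Tree × Tree), ts.length = k →
      (∀ p ∈ ts, p.1.children ≤ D ∧ Heavy M p.1 ∧ p.2.children ≤ D ∧ Heavy M p.2) →
      ∃ W : ℝ, IsMaxVolume m ts W ∧ V k m - ε + (2 * octahedron - ε) * edges ts ≤ W ∧
        W ≤ V k m + 2 * octahedron * edges ts ∧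
        ∀ e f : ℤ, Tendsto (fun N : ℕ => 2 * Real.pi *
            (Real.log ‖kashaev e f m ts N‖ / N)) atTop (𝓝 W) ∧
          Tendsto (fun N : ℕ => 2 * Real.pi *
            (Real.log ‖kashaev e f (-m) (mirror ts) N‖ / N)) atTop (𝓝 W) := by
  obtain ⟨V, K, h⟩ := exists_V
  -- the full rings
  have hfull : ∀ k m : ℕ, 1 ≤ k → ¬ (k = 1 ∧ m = 0) → ∀ ts : List (Tree × Tree), ts.length = k →
      IsMaxVolume m (full ts) (V k m + 2 * octahedron * edges ts) ∧
      V k m + 2 * octahedron * edges ts ≤ 2 * octahedron * (2 * k + edges ts) ∧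
      GrowthLe (V k m + 2 * octahedron * edges ts) m ts ∧
      GrowthLe (V k m + 2 * octahedron * edges ts) (-m) (mirror ts) := by
    intro k m hk hkm ts hts
    obtain ⟨D, hD⟩ := exists_D ts
    obtain ⟨M, hM⟩ := h k m hk hkm D 1 one_pos
    obtain ⟨W, w1, w2, -, w4, w5⟩ := hM (full ts) (by rw [full_length, hts])
      (large_fullD K M hD)
    have hW := w4 (allC_full ts)
    rw [full_edgesR] at hW w2
    rw [hW] at w1 w2 w5
    exact ⟨w1, w2, w5 ts (full_ring ts)⟩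
  refine ⟨K, V, fun k m hk hkm => ⟨?_, fun ts hts => ?_, fun D => ?_, fun D ε hε => ?_⟩⟩
  · have h1 := (hfull k m hk hkm (List.replicate k (Tree.single true 0, Tree.single true 0))
      (by rw [List.length_replicate])).2.1
    rw [edges_zero] at h1
    push_cast at h1
    linarith
  · have h1 := hfull k m hk hkm ts hts
    have h2 := (hfull k m hk hkm (mirror ts) (by rw [mirror_length, hts])).2.2.2
    rw [mm, me] at h2
    exact ⟨h1.1, h1.2.2.1, h2⟩
  · obtain ⟨M, hM⟩ := h k m hk hkm D 1 one_pos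
    refine ⟨M, fun ts ss hss hts hL => ?_⟩
    obtain ⟨W, w1, w2, -, -, w5⟩ := hM ss hss hL
    exact ⟨W, w1, w2, w5 ts hts⟩
  · obtain ⟨M₁, hM₁⟩ := h k m hk hkm D ε hε
    obtain ⟨K₂, h₂⟩ := Pool.Agent.N518.RC.Rg.main
    obtain ⟨M₂, hM₂⟩ := h₂ k m D hk hkm
    refine ⟨M₁ + M₂ + K + K₂, fun ts hts hH => ?_⟩
    obtain ⟨W, w1, w2, w3, -, -⟩ := hM₁ ts hts (by
      intro p hp
      obtain ⟨a1, a2, b1, b2⟩ := hH p hp
      have a3 := heavy_mono (show M₁ ≤ M₁ + M₂ + K + K₂ by omega) _ a2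
      have b3 := heavy_mono (show M₁ ≤ M₁ + M₂ + K + K₂ by omega) _ b2
      exact ⟨⟨a1, heavy_root _ a3, heavy_below (by omega) _ a2⟩,
        ⟨b1, heavy_root _ b3, heavy_below (by omega) _ b2⟩⟩)
    obtain ⟨-, W', g1, g2⟩ := hM₂ ts hts (by
      intro p hp
      obtain ⟨a1, a2, b1, b2⟩ := hH p hp
      have a3 := heavy_mono (show M₂ ≤ M₁ + M₂ + K + K₂ by omega) _ a2
      have b3 := heavy_mono (show M₂ ≤ M₁ + M₂ + K + K₂ by omega) _ b2
      exact ⟨⟨a1, heavy_root _ a3, large_fine _ _ (heavy_below (by omega) _ a2)⟩,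
        ⟨b1, heavy_root _ b3, large_fine _ _ (heavy_below (by omega) _ b2)⟩⟩)
    have hWW : W' = W := IsGreatest.unique g1 w1
    rw [hWW] at g1 g2
    refine ⟨W, w1, w3 ?_, ?_, fun e f => (g2 e f).2⟩
    · intro p hp
      obtain ⟨a1, a2, b1, b2⟩ := hH p hp
      exact ⟨heavy_mono (by omega) _ a2, heavy_mono (by omega) _ b2⟩
    · exact le_of_bd (hfull k m hk hkm ts hts).2.2.1 (g2 0 0).1.1 (g2 0 0).2.1

end Pool.Agent.N518.UB.Rg
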