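import Pool.Agent.N518.UB.Core
import Pool.Agent.N518.RC.XLC

/-!
# Asymptotics of `XV` near `χ = χ₀`, with perturbed circles
-/

set_option autoImplicit false
set_option linter.all false

namespace Pool.Agent.N518.UB

open Finset Filter Topology Metric
open Pool.Agent.W711.HT hiding XX
open Pool.Agent.Y472
open Pool.Agent.Y481.DR
open Pool.Agent.N518.RC hiding circ_step circ_step' itG_bd circ_iter itG_perm mix XV_eq coreC xlc
open Pool.Agent.Y674.CB (potE_mono rc_open rc_mono rc_norm rc_zero rc_neg bx_mono SJ sj sj1 sj2 sj3)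
open Pool.Agent.Y674.CG (AS rz_mem SDZ.sj)
open Pool.Agent.Y481 (itI itN itG Sep wts cw LI LN)
open scoped Real

/-- asymptotics of `XV` near `χ = χ₀`; `b j` says whether there is a circle at the vertex number
`j`, its factor is perturbed by `θ j` -/
def XLQc : Prop := ∀ (χ₀ : ℂ) (ρ₀ c C : ℝ), Zr χ₀ → bet ≤ (s0 χ₀).re → SDZ χ₀ ρ₀ c C szz dzz →
  ∀ R₀ B₀ : ℝ, 0 < R₀ → 0 < B₀ → ∀ k : ℕ, 1 ≤ k →
  ∃ R c' : ℝ, 0 < R ∧ R ≤ 1 ∧ R ≤ ρ₀ ∧ R ≤ R₀ ∧ 0 < c' ∧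
    ∃ B C' M : ℝ, 0 < B ∧ 0 < C' ∧ 0 < M ∧ ∀ (ls : List (Vx × Vx)) (b : ℕ → Bool)
      (θ : ℕ → ℕ → ℂ) (ε₁ : ℝ) (Y : ℕ → ℕ → ℂ → ℂ) (F : ℕ → ℂ → ℂ), 0 < ε₁ →
      (∀ i N, ‖θ i N‖ ≤ Real.exp (-(ε₁ * N))) → ls.length = k →
      (∀ j < 2 * k, DG R₀ B₀ (Y j) (F j)) →
      (∀ j < 2 * k, ∀ N ψ, vy ls j N ψ = Uq (b j) (θ j N) N ψ * Y j N ψ) →
      (∀ j < 2 * k, b j = false → M ≤ |(cw (wl ls) j : ℝ)|) → ∃ (G : ℂ → ℂ) (z : ℂ → ℕ → ℂ),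
        DifferentiableOn ℂ G (Rc R R) ∧
        (∀ χ ∈ Rc R R, ‖G χ‖ ≤ B ∧ (deriv (deriv G) χ).re ≤ -c') ∧
        MW (fun N χ => XV ls N (χ + χ₀)) G (Rc R R) ∧
        (∀ χ ∈ Rc R R, (∀ j < 2 * k, z χ j ∈ Rc (R / 2) (R / 2) ∧ ‖z χ j‖ ≤ 1 / 10 ∧
          (b j = true → z χ j = 0) ∧ (b ((j + 1) % (2 * k)) = false →
          Complex.I * cw (wl ls) ((j + 1) % (2 * k)) * z χ ((j + 1) % (2 * k)) / (2 * π) +
            Complex.I + deriv (F ((j + 1) % (2 * k))) (z χ ((j + 1) % (2 * k))) +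
            deriv (fun w => szz (z χ j) w (χ + χ₀)) (z χ ((j + 1) % (2 * k))) +
            deriv (fun w => szz w (z χ (((j + 1) % (2 * k) + 1) % (2 * k))) (χ + χ₀))
              (z χ ((j + 1) % (2 * k))) = 0)) ∧
          deriv G χ = ∑ j ∈ range (2 * k),
            deriv (fun w => szz (z χ j) (z χ ((j + 1) % (2 * k))) w) (χ + χ₀) ∧
          G χ = ∑ j ∈ range (2 * k), (Complex.I * cw (wl ls) j * z χ j ^ 2 / (4 * π) +
            Complex.I * z χ j + F j (z χ j) +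
            szz (z χ j) (z χ ((j + 1) % (2 * k))) (χ + χ₀))) ∧
        ∀ m : ℝ, (∀ j < 2 * k, b j = false → m ≤ |(cw (wl ls) j : ℝ)|) → 0 < m →
          (∀ χ ∈ Rc R R, ∀ j < 2 * k, ‖z χ j‖ ≤ C' / m) ∧
          ∀ χ ∈ Rc R R, ‖G χ - 2 * k * szz 0 0 (χ + χ₀)‖ ≤ C' / m

theorem xlq : S_POTF → S_CRE → S_ELE → MWZc → KBZc → XLQc := by
  intro hPOT hCR hEL hMW hKB χ₀ ρ₀ c C hZ hbe hS Rd Bd hRd hBd k hk
  obtain ⟨n, hn⟩ : ∃ n, n = 2 * k := ⟨_, rfl⟩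
  have hn2 : 2 ≤ n := by omega
  have hnR : (0 : ℝ) < n := by exact_mod_cast (by omega : 0 < n)
  have hnR1 : (1 : ℝ) ≤ n := by exact_mod_cast (by omega : 1 ≤ n)
  obtain ⟨T, K, R₃, hT, hK, hR3, hR3ρ, HFB⟩ := fb_ring hKB hZ hS hRd hBd (n := n) (by omega)
  obtain ⟨R₀, c₀, B₀, hR0, hR00, hR0d, hc0, hB0, hPn⟩ :=
    hPOT χ₀ ρ₀ c C szz dzz hbe hS Rd Bd hRd hBd n hn2
  obtain ⟨s, hs⟩ : ∃ s : ℂ → ℂ → ℂ → ℂ, s = szz := ⟨_, rfl⟩
  rw [← hs] at hS HFB hPn ⊢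
  obtain ⟨ρ₂, hρ2, -, HM⟩ := hMW χ₀ hZ
  rw [← hs] at HM
  have hρ0 := hS.hρ.1
  obtain ⟨ρ₁, hρ1, hρ12, hρ10⟩ : ∃ ρ₁ : ℝ, 0 < ρ₁ ∧ ρ₁ ≤ ρ₂ ∧ ρ₁ ≤ ρ₀ :=
    ⟨min ρ₂ ρ₀, lt_min hρ2 hρ0, min_le_left _ _, min_le_right _ _⟩
  have hJ := Pool.Agent.Y674.CG.SDZ.sj hS
  have hA : AS χ₀ ρ₁ (shz χ₀ s) := by
    intro ε hε
    filter_upwards [HM ε hε] with N hN ψ hψ ψ' hψ' χ hχ
    exact hN ψ (rc_mono hρ12 hψ) ψ' (rc_mono hρ12 hψ') _ (rz_mem (rc_mono hρ12 hχ))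
  obtain ⟨R₁, hR1, hR10, hR1ρ, hR13⟩ : ∃ R₁ : ℝ, 0 < R₁ ∧ R₁ ≤ R₀ ∧ R₁ ≤ ρ₁ ∧ R₁ ≤ R₃ :=
    ⟨min R₀ (min ρ₁ R₃), lt_min hR0 (lt_min hρ1 hR3), min_le_left _ _,
      (min_le_right _ _).trans (min_le_left _ _), (min_le_right _ _).trans (min_le_right _ _)⟩
  have hR1one : R₁ ≤ 1 := hR10.trans (hR00.trans hS.hρ.2)
  have hbet : 0 < bet / 4 := by
    have := (hPn (fun _ _ _ => 1) (fun _ _ => 0) (fun j _ => by
      refine ⟨⟨fun N => differentiable_const _, fun N ψ => rfl, fun ε hε => ?_⟩, rfl,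
        differentiableOn_const _, fun ψ _ => rfl, fun ψ _ => by rw [norm_zero]; exact hBd.le,
        fun ψ _ => by simp, fun ε hε => ?_⟩
      · filter_upwards with N ψ _ _
        rw [norm_one]
        exact Real.one_le_exp (by positivity)
      · filter_upwards with N z _
        refine ⟨one_ne_zero, ?_⟩
        simp
        positivity)).hp
    exact this
  -- constants for every number `e` of vertices without circle
  have hCRe : ∀ e : ℕ, ∃ C₁ M₁ : ℝ, 0 < C₁ ∧ 0 < M₁ ∧ (e ≤ n →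
      ∀ (S : (ℕ → ℂ) → ℂ) (D : ℕ → (ℕ → ℂ) → ℂ), PotE (n + 1) e R₁ c₀ B₀ (bet / 4) S D →
        ∀ a : ℕ → ℤ, (∀ j < e, M₁ ≤ |(a j : ℝ)|) → ∃ zz : ℕ → (ℕ → ℂ) → ℕ → ℂ,
          CrtE (n + 1) e R₁ c₀ B₀ (bet / 4) C₁ S D a zz) := by
    intro e
    by_cases he : e ≤ n
    · obtain ⟨C₁, M₁, h1, h2, h3⟩ := hCR (n + 1) e R₁ c₀ B₀ (bet / 4) (by omega)
      exact ⟨C₁, M₁, h1, h2, fun _ => h3⟩
    · exact ⟨1, 1, one_pos, one_pos, fun h => absurd h he⟩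
  choose C₁ M₁ hC1 hM1 HCR using hCRe
  have hELe : ∀ e : ℕ, ∃ M₂ : ℝ, 0 < M₂ ∧ (e ≤ n →
      ∀ (S : (ℕ → ℂ) → ℂ) (D : ℕ → (ℕ → ℂ) → ℂ), PotE (n + 1) e R₁ c₀ B₀ (bet / 4) S D →
        ∀ a : ℕ → ℤ, (∀ j < e, M₂ ≤ |(a j : ℝ)|) → ∀ zz : ℕ → (ℕ → ℂ) → ℕ → ℂ,
          CrtE (n + 1) e R₁ c₀ B₀ (bet / 4) (C₁ e) S D a zz →
        ∀ f : ℕ → (ℕ → ℂ) → ℂ, (∀ N, Sep (n + 1) (f N)) → SeqLim (n + 1) (R₁ / 2) f S →
          ∀ j ≤ e, SeqLim (n + 1) (R₁ / 2) (fun N => itN (fun _ => R₁ / 8) a N j (f N))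
            (fun ψ => Uj S a j (zz j ψ))) := by
    intro e
    by_cases he : e ≤ n
    · obtain ⟨M₂, h1, h2⟩ := hEL (n + 1) e R₁ c₀ B₀ (bet / 4) (C₁ e) (by omega) (hC1 e)
      exact ⟨M₂, h1, fun _ => h2⟩
    · exact ⟨1, one_pos, fun h => absurd h he⟩
  choose M₂ hM2 HEL using hELe
  have hπ := Real.pi_gt_three
  have hHe : ∀ e : ℕ, ∃ r₁ η₁ r₂ η₂ : ℝ, 0 < r₂ ∧ r₂ ≤ R₁ / 2 ∧ 0 < η₁ ∧ 0 < η₂ ∧ (e ≤ n →
      ∀ (a : ℕ → ℤ) (b : ℕ → Bool) (θ : ℕ → ℕ → ℂ) (ε₁ : ℝ) (g : ℂ → ℝ) (f : ℕ → (ℕ → ℂ) → ℂ)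
        (S : (ℕ → ℂ) → ℂ) (η : ℝ), 0 < ε₁ → (∀ i N, ‖θ i N‖ ≤ Real.exp (-(ε₁ * N))) → η ≤ η₁ → η ≤ η₂ → ContinuousOn g (Rc R₃ R₃) → (∀ j < e, b j = false) →
        (∀ j, e ≤ j → j < n → b j = true) →
        CP n e (R₁ / 2) (c₀ / 2) (B₀ + 1) (bet / 4 / 2) B₀ η g S → FB n T K R₃ g f →
        (∀ N, Sep (n + 1) (f N)) →
        SeqLim (n + 1) (R₁ / 2) (fun N => itN (fun _ => R₁ / 8) a N e (f N)) S →
        SeqLim (n + 1) r₂ (fun N => itG (fun i => Lq (b i) (θ i N) (a i) N) n (f N))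
          (fun ψ => S (zr e n ψ))) := by
    intro e
    by_cases he : e ≤ n
    · obtain ⟨r₁, η₁, h1, h2, h3, h4⟩ := heavy_step n e he hT hK (r := R₁ / 2) (ρ := R₁ / 8)
        (p := bet / 4 / 2) (Lp := B₀) (R := R₃) (by positivity) (by linarith) (by positivity)
        (by linarith) (by positivity) hB0.le
      obtain ⟨r₂, η₂, h5, h6, h7, h8⟩ := circ_iter n e hT hK (r := r₁) (c := c₀ / 2) (B := B₀ + 1)
        (p := bet / 4 / 2) (Lp := B₀) (R := R₃) h1 (by linarith) (by linarith) (by positivity)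
        (by positivity) (by positivity) hB0.le (n - e) (by omega)
      refine ⟨r₁, η₁, r₂, η₂, h5, h6.trans h2, h3, h7, fun _ => ?_⟩
      intro a b θ ε₁ g f S η u1 u2 q1 q2 q3 q4 q5 q6 q7 q8 q9
      have k1 := h4 a b g f S η q1 q3 q4 q6.pos q6.low q7 q8 q9
      have k2 := h8 a b θ ε₁ g f S η u1 u2 q2 q3 q5 (q6.mono h2) q7 q8 (by
        simp only [itG_heavy q4]
        exact k1)
      rw [show e + (n - e) = n by omega] at k2
      exact k2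
    · exact ⟨1, 1, R₁ / 2, 1, by positivity, le_rfl, one_pos, one_pos, fun h => absurd h he⟩
  choose r₁ η₁ r₂ η₂ hr2 hr2R hη1 hη2 HH using hHe
  obtain ⟨u, hu, hur⟩ := lb_ex n r₂ fun e _ => hr2 e
  obtain ⟨η, hη, hηe⟩ := lb_ex n (fun e => min (η₁ e) (η₂ e)) fun e _ => lt_min (hη1 e) (hη2 e)
  obtain ⟨Cm, hCm, hCe⟩ := ub_ex n C₁
  obtain ⟨Mm, hMm, hMe⟩ := ub_ex n fun e => M₁ e + M₂ e
  -- the radius
  obtain ⟨R, hR, hRR1, hRu, hR_1, hRρ⟩ : ∃ R : ℝ, 0 < R ∧ R ≤ R₁ / 4 ∧ R ≤ u / 2 ∧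
      R ≤ 1 ∧ R ≤ ρ₀ := by
    refine ⟨min (min (R₁ / 4) (u / 2)) (min 1 ρ₀), ?_, ?_, ?_, ?_, ?_⟩
    · exact lt_min (lt_min (by positivity) (by positivity)) (lt_min one_pos hρ0)
    · exact (min_le_left _ _).trans (min_le_left _ _)
    · exact (min_le_left _ _).trans (min_le_right _ _)
    · exact (min_le_right _ _).trans (min_le_left _ _)
    · exact (min_le_right _ _).trans (min_le_right _ _)
  refine ⟨R, c₀ / 2, hR, hR_1, hRρ, by linarith, by positivity, B₀ + 1, n * Cm,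
    Mm + 10 * Cm + 4 * Cm / R + n * Cm + n * Cm / η, by positivity, by positivity,
    by positivity, ?_⟩
  obtain ⟨M, hM⟩ : ∃ M : ℝ, M = Mm + 10 * Cm + 4 * Cm / R + n * Cm + n * Cm / η := ⟨_, rfl⟩
  rw [← hM]
  have p1 : 0 < 4 * Cm / R := by positivity
  have p2 : 0 < n * Cm / η := by positivity
  have p3 : 0 < n * Cm := by positivity
  have hM_1 : Mm ≤ M := by rw [hM]; linarith
  have hM_4 : 10 * Cm ≤ M := by rw [hM]; linarith
  have hM_5 : 4 * Cm / R ≤ M := by rw [hM]; linarith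
  have hM_6 : n * Cm / η ≤ M := by rw [hM]; linarith
  have hM_7 : n * Cm ≤ M := by rw [hM]; linarith
  have hM0 : 0 < M := by linarith
  intro ls b θ ε₁ Y F hε₁ hθ hls hDG hvy hlsM
  rw [← hn] at hDG hvy hlsM
  have hPot := potE_mono (hPn Y F hDG) hR1 hR10
  obtain ⟨σ, e, he, hσ, hσb⟩ := perm_ex b n
  have hσL : ∀ i, n + 1 ≤ i → σ i = i := perm_le hσ (by omega)
  have hσe : ∀ i < e, b (σ i) = false := fun i hi => (hσb i (by omega)).2 hi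
  -- the constants of `e`
  have hC1m : C₁ e ≤ Cm := hCe e he
  have hMe' := hMe e he
  have q1 := hM1 e
  have q2 := hM2 e
  have hηe1 : η ≤ η₁ e := (hηe e he).trans (min_le_left _ _)
  have hηe2 : η ≤ η₂ e := (hηe e he).trans (min_le_right _ _)
  have hCM1 : Cm / M ≤ 1 / 10 := by
    rw [div_le_div_iff₀ hM0 (by norm_num)]
    linarith
  have hCM2 : Cm / M ≤ R / 4 := by
    rw [div_le_iff₀ hR] at hM_5
    rw [div_le_div_iff₀ hM0 (by norm_num)]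
    linarith
  have hCM3 : n * (C₁ e / M) ≤ η := by
    rw [div_le_iff₀ hη] at hM_6
    rw [← mul_div_assoc, div_le_iff₀ hM0]
    have := mul_le_mul_of_nonneg_left hC1m hnR.le
    linarith
  have hCM4 : n * (C₁ e / M) ≤ 1 := by
    rw [← mul_div_assoc, div_le_one hM0]
    have := mul_le_mul_of_nonneg_left hC1m hnR.le
    linarith
  obtain ⟨a, ha⟩ : ∃ a : ℕ → ℤ, ∀ j, a j = cw (wl ls) j := ⟨_, fun _ => rfl⟩
  simp only [← ha] at hlsM ⊢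
  have haM : ∀ i < e, M ≤ |((fun i => a (σ i)) i : ℝ)| := fun i hi =>
    hlsM _ (perm_lt hσ (by omega)) (hσe i hi)
  have hPe : PotE (n + 1) e R₁ c₀ B₀ (bet / 4) (fun ψ => SrF (shz χ₀ s) F n (ψ ∘ σ.symm))
      (fun j ψ => DrF (shz χ₀ s) F n (σ j) (ψ ∘ σ.symm)) :=
    potE_perm hPot hσL (by omega) fun i hi => perm_lt hσ (by omega)
  have hPn' : PotE (n + 1) n R₁ c₀ B₀ (bet / 4) (fun ψ => SrF (shz χ₀ s) F n (ψ ∘ σ.symm))
      (fun j ψ => DrF (shz χ₀ s) F n (σ j) (ψ ∘ σ.symm)) :=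
    potE_perm hPot hσL (by omega) fun i hi => perm_lt hσ hi
  obtain ⟨zz, hz⟩ := HCR e he _ _ hPe (fun i => a (σ i)) fun i hi => by
    have := haM i hi
    linarith
  obtain ⟨f, hf⟩ : ∃ f : ℕ → (ℕ → ℂ) → ℂ, f = fun N φ => gY χ₀ Y n N (φ ∘ σ.symm) := ⟨_, rfl⟩
  have hfsep : ∀ N, Sep (n + 1) (f N) := fun N => by
    rw [hf]
    exact sep_perm hσL (gY_sep χ₀ (by omega) (fun j hj => (hDG j hj).sub.an) N)
  have hflim : SeqLim (n + 1) (R₁ / 2) f (fun ψ => SrF (shz χ₀ s) F n (ψ ∘ σ.symm)) := by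
    rw [hf]
    exact seqlim_perm hσL (gY_lim hJ hρ10 hA (by omega) hDG (by linarith) (by linarith))
  have hN := HEL e he _ _ hPe (fun i => a (σ i)) (fun i hi => by
    have := haM i hi
    linarith) zz hz f hfsep hflim e le_rfl
  -- the potential of the circles
  obtain ⟨g, hg⟩ : ∃ g : ℂ → ℝ, g = fun χ => n * (shz χ₀ s 0 0 χ).re := ⟨_, rfl⟩
  have hg0 : ∀ χ ∈ Rc R₁ R₁, g χ ≤
      (SrF (shz χ₀ s) F n (Function.update (0 : ℕ → ℂ) n χ ∘ σ.symm)).re := by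
    intro χ _
    have hs' := perm_symm hσ
    have k1 : ∀ j < n, (Function.update (0 : ℕ → ℂ) n χ ∘ σ.symm) j = 0 := by
      intro j hj
      have h2 := perm_lt hs' hj
      rw [Function.comp_apply, Function.update_of_ne (by omega)]
      rfl
    have k2 : (Function.update (0 : ℕ → ℂ) n χ ∘ σ.symm) n = χ := by
      rw [Function.comp_apply, hs' n le_rfl, Function.update_self]
    unfold SrF Sr
    rw [k2]
    have e0 : ∑ j ∈ range n, F j ((Function.update (0 : ℕ → ℂ) n χ ∘ σ.symm) j) = 0 := by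
      refine sum_eq_zero fun j hj => ?_
      rw [mem_range] at hj
      rw [k1 j hj]
      exact (hDG j hj).F0
    rw [e0, add_zero]
    have e1 : ∀ j ∈ range n, shz χ₀ s ((Function.update (0 : ℕ → ℂ) n χ ∘ σ.symm) j)
        ((Function.update (0 : ℕ → ℂ) n χ ∘ σ.symm) ((j + 1) % n)) χ = shz χ₀ s 0 0 χ := by
      intro j hj
      rw [mem_range] at hj
      rw [k1 j hj, k1 _ (Nat.mod_lt (j + 1) (by omega : 0 < n))]
    rw [sum_congr rfl e1, sum_const, card_range, nsmul_eq_mul, hg]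
    simp only
    have e2 : ((n : ℂ) * shz χ₀ s 0 0 χ).re = n * (shz χ₀ s 0 0 χ).re := by
      rw [← Complex.ofReal_natCast, Complex.re_ofReal_mul]
    rw [e2]
  have hgc : ContinuousOn g (Rc R₃ R₃) := by
    intro χ hχ
    have h1 : ContinuousAt (fun w => shz χ₀ s 0 0 w) χ :=
      (sj3 hJ (rc_zero hρ0) (rc_zero hρ0) (rc_mono hR3ρ hχ)).continuousAt
    rw [hg]
    exact ((continuous_const.mul Complex.continuous_re).continuousAt.comp h1).continuousWithinAt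
  have hcp := cp_of (M := M) he hPn' hz (hC1 e) hM0 haM hg0
  have hcp' : CP n e (R₁ / 2) (c₀ / 2) (B₀ + 1) (bet / 4 / 2) B₀ (n * (C₁ e / M)) g
      (fun ψ => Uj (fun ψ => SrF (shz χ₀ s) F n (ψ ∘ σ.symm)) (fun i => a (σ i)) e (zz e ψ)) :=
    ⟨hcp.dif, hcp.conc, hcp.ev, fun ψ hψ => (hcp.bd ψ hψ).trans (by linarith), hcp.pos, hcp.low⟩
  have hfb : FB n T K R₃ g f := by
    have h0 := HFB Y F hDG
    rw [hf, hg]
    intro ρ hρ
    filter_upwards [h0 ρ hρ] with N h1 ψ hψ hχ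
    rintro ⟨j, hj, hj2⟩
    have hs' := perm_symm hσ
    have k2 : (ψ ∘ σ.symm) n = ψ n := by
      rw [Function.comp_apply, hs' n le_rfl]
    have h2 := h1 (ψ ∘ σ.symm) (fun i hi => hψ _ (perm_lt hs' hi)) (by rw [k2]; exact hχ)
      ⟨σ j, perm_lt hσ hj, by
        rw [Function.comp_apply, Equiv.symm_apply_apply]
        exact hj2⟩
    rw [k2] at h2
    exact h2
  have hlim := HH e he (fun i => a (σ i)) (fun i => b (σ i)) (fun i => θ (σ i)) ε₁ g f _ _ hε₁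
    (fun i N => hθ (σ i) N) (hCM3.trans hηe1)
    (hCM3.trans hηe2) hgc hσe (fun j hj hjn => by
      by_contra hc
      rw [Bool.not_eq_true] at hc
      have := (hσb j hjn).1 hc
      omega) hcp' hfb hfsep hN
  have hO := coreC (ls := ls) (R := R) (r' := r₂ e) hJ hρ10 hn2 (by rw [hls, hn]) hDG hvy hR1ρ (by linarith)
    hPot he hσ hσb ha (hC1 e) hz hM0 hlsM hR hRR1 (lt_of_le_of_lt hRu (by linarith [hur e he]))
    (by rw [hf] at hlim; exact hlim)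
  obtain ⟨G, hG⟩ : ∃ G : ℂ → ℂ, G = fun χ => Uj (fun ψ => SrF (shz χ₀ s) F n (ψ ∘ σ.symm))
    (fun i => a (σ i)) e (zz e (Function.update 0 n χ)) := ⟨_, rfl⟩
  obtain ⟨z, hz'⟩ : ∃ z : ℂ → ℕ → ℂ, z = fun χ => zz e (Function.update 0 n χ) ∘ σ.symm :=
    ⟨_, rfl⟩
  rw [← hG, ← hz'] at hO
  have hsub : Rc R R ⊆ Rc (R₁ / 2) (R₁ / 2) := rc_mono (by linarith)
  have hzb : ∀ χ ∈ Rc R R, ∀ j < n, ∀ m : ℝ, 0 < m →
      (∀ j < n, b j = false → m ≤ |(a j : ℝ)|) → ‖z χ j‖ ≤ Cm / m := by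
    intro χ hχ j hj m hm0 hm
    by_cases hb : b j = true
    · rw [hO.zero χ (hsub hχ) j hj hb, norm_zero]
      positivity
    · rw [Bool.not_eq_true] at hb
      have h1 := hm j hj hb
      refine (hO.sm χ (hsub hχ) j hj hb).trans ?_
      calc C₁ e / |(a j : ℝ)| ≤ C₁ e / m := div_le_div_of_nonneg_left (hC1 e).le hm0 h1
        _ ≤ Cm / m := div_le_div_of_nonneg_right hC1m hm0.le
  refine ⟨G, z, ?_, ?_, hO.mw, ?_, ?_⟩
  · intro χ hχ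
    exact (hO.der χ (hsub hχ)).differentiableAt.differentiableWithinAt
  · intro χ hχ
    refine ⟨(hO.bdd χ (hsub hχ)).trans (by linarith), ?_⟩
    have := hO.conc χ (hsub hχ)
    linarith
  · intro χ hχ
    have hχ1 := hsub hχ
    refine ⟨?_, ?_, ?_⟩
    · intro j hj
      rw [← hn] at hj ⊢
      have hs2 := hzb χ hχ j hj M hM0 hlsM
      exact ⟨rc_norm (hs2.trans_lt (by linarith)), hs2.trans hCM1, hO.zero χ hχ1 j hj,
        hO.crit χ hχ1 j hj⟩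
    · rw [hO.derG χ hχ1, hn]
      refine sum_congr rfl fun j _ => ?_
      unfold shz
      rw [deriv_comp_add_const]
    · rw [hO.val χ hχ1, hn]
      rfl
  · intro m hm hm0
    have hm' : ∀ i < n, b i = false → m ≤ |(a i : ℝ)| := fun i hi => hm i (by omega)
    refine ⟨fun χ hχ j hj => ?_, fun χ hχ => ?_⟩
    · rw [← hn] at hj
      refine (hzb χ hχ j hj m hm0 hm').trans ?_
      refine div_le_div_of_nonneg_right ?_ hm0.le
      exact le_mul_of_one_le_left hCm.le hnR1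
    · have h := hO.close χ (hsub hχ) m hm0 hm'
      have e' : (n : ℂ) * shz χ₀ s 0 0 χ = 2 * k * s 0 0 (χ + χ₀) := by
        unfold shz
        rw [hn]
        push_cast
        ring
      rw [e'] at h
      refine h.trans (div_le_div_of_nonneg_right ?_ hm0.le)
      exact mul_le_mul_of_nonneg_left hC1m hnR.le

end Pool.Agent.N518.UB
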